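import Pool.Agent.Run7.h516.Good

/-! A non-smooth exposed point yields a non-convex Chebyshev set. -/

namespace Run7.h516

open Metric Set Filter Topology

set_option linter.unusedSectionVars false

variable {E : Type*} [NormedAddCommGroup E] [NormedSpace ℝ E]

/-- a functional of norm at most one that attains the value one on the ball only at `s` -/
def Exp (s : E) (f : E →L[ℝ] ℝ) : Prop :=
  ‖f‖ ≤ 1 ∧ f s = 1 ∧ ∀ y : E, ‖y‖ ≤ 1 → 1 ≤ f y → y = s

theorem exp_eq {s : E} {f : E →L[ℝ] ℝ} (hf : Exp s f) {w : E} {ρ : ℝ} (hρ : 0 < ρ)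
    (h1 : ‖w‖ ≤ ρ) (h2 : ρ ≤ f w) : w = ρ • s := by
  have h3 := hf.2.2 (ρ⁻¹ • w) (by
    rw [norm_smul, norm_inv, Real.norm_of_nonneg hρ.le, inv_mul_le_iff₀ hρ]; linarith) (by
    rw [map_smul, smul_eq_mul, le_inv_mul_iff₀ hρ]; linarith)
  rw [← h3, smul_smul, mul_inv_cancel₀ hρ.ne', one_smul]

theorem cheb_of_exp {s : E} {f g : E →L[ℝ] ℝ} (hf : Exp s f) (hg : Exp s g) (hs : ‖s‖ = 1)
    (x : E) : ∃! y, y ∈ {x : E | 0 ≤ f x ∨ 0 ≤ g x} ∧
      ∀ k ∈ {x : E | 0 ≤ f x ∨ 0 ≤ g x}, ‖x - y‖ ≤ ‖x - k‖ := by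
  by_cases hx : 0 ≤ f x ∨ 0 ≤ g x
  · refine ⟨x, ⟨hx, fun k _ => by simp⟩, fun y hy => ?_⟩
    have := hy.2 x hx
    rw [sub_self, norm_zero] at this
    have h2 : ‖x - y‖ = 0 := le_antisymm this (norm_nonneg _)
    exact (sub_eq_zero.1 (norm_eq_zero.1 h2)).symm
  · rw [not_or, not_le, not_le] at hx
    obtain ⟨hfx, hgx⟩ := hx
    set ρ := min (-f x) (-g x) with hρ
    have hρ0 : 0 < ρ := lt_min (by linarith) (by linarith)
    have hρf : ρ ≤ - f x := min_le_left _ _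
    have hρg : ρ ≤ - g x := min_le_right _ _
    have hmem : x + ρ • s ∈ {x : E | 0 ≤ f x ∨ 0 ≤ g x} := by
      rcases min_choice (-f x) (-g x) with h1 | h1
      · left
        rw [map_add, map_smul, hf.2.1, hρ, h1]; simp
      · right
        rw [map_add, map_smul, hg.2.1, hρ, h1]; simp
    have hnorm : ‖x - (x + ρ • s)‖ = ρ := by
      have e : x - (x + ρ • s) = -(ρ • s) := by abel
      rw [e, norm_neg, norm_smul, hs, Real.norm_of_nonneg hρ0.le, mul_one]
    have hlow : ∀ k ∈ {x : E | 0 ≤ f x ∨ 0 ≤ g x}, ρ ≤ f (k - x) ∨ ρ ≤ g (k - x) := by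
      intro k hk
      rcases hk with h1 | h1
      · left; rw [map_sub]; linarith
      · right; rw [map_sub]; linarith
    refine ⟨x + ρ • s, ⟨hmem, fun k hk => ?_⟩, fun y hy => ?_⟩
    · rw [hnorm, norm_sub_rev]
      rcases hlow k hk with h1 | h1
      · exact h1.trans (apply_le_norm hf.1 _)
      · exact h1.trans (apply_le_norm hg.1 _)
    · have h1 := hy.2 _ hmem
      rw [hnorm, norm_sub_rev] at h1
      have h2 : y - x = ρ • s := by
        rcases hlow y hy.1 with h3 | h3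
        · exact exp_eq hf hρ0 h1 h3
        · exact exp_eq hg hρ0 h1 h3
      rw [← h2]; abel

theorem not_convex_of_exp {s : E} {f g : E →L[ℝ] ℝ} (hf : f s = 1) (hg : g s = 1) (hne : f ≠ g) :
    ¬ Convex ℝ {x : E | 0 ≤ f x ∨ 0 ≤ g x} := by
  intro hconv
  obtain ⟨y, hy⟩ : ∃ y, f y ≠ g y := by
    by_contra hcon
    apply hne
    ext y
    by_contra h1
    exact hcon ⟨y, h1⟩
  -- wlog f y < g y by replacing y with -y
  obtain ⟨y, hy⟩ : ∃ y, f y < g y := by
    rcases lt_or_gt_of_ne hy with h1 | h1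
    · exact ⟨y, h1⟩
    · exact ⟨-y, by rw [map_neg, map_neg]; linarith⟩
  -- a : g a = 0, f a < 0 ; b : f b = 0, g b < 0
  set a := y - g y • s with ha
  set b := -(y - f y • s) with hb
  have hga : g a = 0 := by rw [ha, map_sub, map_smul, hg]; simp
  have hfa : f a < 0 := by rw [ha, map_sub, map_smul, hf]; simp; linarith
  have hfb : f b = 0 := by rw [hb, map_neg, map_sub, map_smul, hf]; simp
  have hgb : g b < 0 := by rw [hb, map_neg, map_sub, map_smul, hg]; simp; linarith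
  have h1 := hconv (show a ∈ {x : E | 0 ≤ f x ∨ 0 ≤ g x} from Or.inr hga.ge)
    (show b ∈ {x : E | 0 ≤ f x ∨ 0 ≤ g x} from Or.inl hfb.ge)
    (a := 1 / 2) (b := 1 / 2) (by norm_num) (by norm_num) (by norm_num)
  rcases h1 with h1 | h1
  · rw [map_add, map_smul, map_smul, hfb, smul_eq_mul, smul_zero] at h1
    linarith
  · rw [map_add, map_smul, map_smul, hga, smul_eq_mul, smul_eq_mul] at h1
    linarith

theorem necessity
    (hC : ∀ G : Set E, (∀ x : E, ∃! g, g ∈ G ∧ ∀ h ∈ G, ‖x - g‖ ≤ ‖x - h‖) → Convex ℝ G)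
    {s : E} (hs : s ∈ (closedBall (0 : E) 1).exposedPoints ℝ) (hs1 : ‖s‖ = 1) :
    ∃! f : E →L[ℝ] ℝ, ‖f‖ = 1 ∧ f s = 1 := by
  obtain ⟨-, l, hl⟩ := hs
  have hl' : ∀ y : E, ‖y‖ ≤ 1 → l y ≤ l s ∧ (l s ≤ l y → y = s) := fun y hy =>
    hl y (by rwa [mem_closedBall_zero_iff])
  have hls : 0 < l s := by
    by_contra hcon
    have h1 := (hl' (-s) (by rw [norm_neg, hs1])).2 (by rw [map_neg]; linarith [not_lt.1 hcon])
    have h2 : s = 0 := by
      have h3 : (2 : ℝ) • s = 0 := by rw [two_smul]; nth_rewrite 1 [← h1]; abel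
      exact (smul_eq_zero.1 h3).resolve_left two_ne_zero
    rw [h2, norm_zero] at hs1
    exact zero_ne_one hs1
  set f : E →L[ℝ] ℝ := (l s)⁻¹ • l with hf
  have hfapp : ∀ y, f y = (l s)⁻¹ * l y := fun y => rfl
  have hfs : f s = 1 := by rw [hfapp]; exact inv_mul_cancel₀ hls.ne'
  have hfball : ∀ y : E, ‖y‖ ≤ 1 → f y ≤ 1 := by
    intro y hy
    rw [hfapp, inv_mul_le_iff₀ hls, mul_one]
    exact (hl' y hy).1
  have hfn : ‖f‖ ≤ 1 := by
    apply ContinuousLinearMap.opNorm_le_bound _ zero_le_one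
    intro w
    rw [one_mul]
    rcases eq_or_ne w 0 with rfl | hw
    · simp
    · have hw0 : 0 < ‖w‖ := norm_pos_iff.2 hw
      have key : ∀ v : E, ‖v‖ = ‖w‖ → f v ≤ ‖w‖ := by
        intro v hv
        have h1 := hfball (‖w‖⁻¹ • v) (by
          rw [norm_smul, norm_inv, norm_norm, hv, inv_mul_cancel₀ hw0.ne'])
        rw [map_smul, smul_eq_mul, inv_mul_le_iff₀ hw0, mul_one] at h1
        exact h1
      rw [Real.norm_eq_abs, abs_le]
      refine ⟨?_, key w rfl⟩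
      have := key (-w) (norm_neg _)
      rw [map_neg] at this
      linarith
  have hfexp : Exp s f := by
    refine ⟨hfn, hfs, fun y hy h1 => (hl' y hy).2 ?_⟩
    rw [hfapp, le_inv_mul_iff₀ hls, mul_one] at h1
    exact h1
  have hfn1 : ‖f‖ = 1 := by
    apply le_antisymm hfn
    have := f.le_opNorm s
    rw [hfs, hs1] at this
    simpa using this
  refine ⟨f, ⟨hfn1, hfs⟩, fun f₁ hf₁ => ?_⟩
  obtain ⟨hf₁n, hf₁s⟩ := hf₁
  by_contra hne
  set g : E →L[ℝ] ℝ := (1 / 2 : ℝ) • (f + f₁) with hg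
  have hgapp : ∀ y, g y = 1 / 2 * (f y + f₁ y) := fun y => rfl
  have hgs : g s = 1 := by rw [hgapp, hfs, hf₁s]; norm_num
  have hgn : ‖g‖ ≤ 1 := by
    rw [hg, norm_smul]
    have := norm_add_le f f₁
    rw [hfn1, hf₁n] at this
    norm_num
    linarith
  have hgexp : Exp s g := by
    refine ⟨hgn, hgs, fun y hy h1 => hfexp.2.2 y hy ?_⟩
    rw [hgapp] at h1
    have h2 := apply_le_norm hf₁n.le y
    linarith
  have hfg : f ≠ g := by
    intro he
    apply hne
    ext y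
    have h1 : f y = g y := by rw [← he]
    rw [hgapp] at h1
    linarith
  exact not_convex_of_exp hfs hgs hfg (hC _ (cheb_of_exp hfexp hgexp hs1))

end Run7.h516
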