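import Mathlib

/-! Metric projections onto Chebyshev sets in finite-dimensional spaces: basic facts. -/

namespace Run7.h516

open Metric Set Filter Topology

set_option linter.unusedSectionVars false

variable {E : Type*} [NormedAddCommGroup E] [NormedSpace ℝ E]

/-- `P` is the single-valued nearest point map onto `M`. -/
structure Proj (M : Set E) (P : E → E) : Prop where
  mem : ∀ x, P x ∈ M
  le : ∀ x, ∀ g ∈ M, ‖x - P x‖ ≤ ‖x - g‖
  uniq : ∀ x, ∀ g ∈ M, ‖x - g‖ ≤ ‖x - P x‖ → g = P x

theorem exists_proj {M : Set E}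
    (h : ∀ x : E, ∃! g, g ∈ M ∧ ∀ k ∈ M, ‖x - g‖ ≤ ‖x - k‖) : ∃ P : E → E, Proj M P := by
  choose P hP hu using h
  refine ⟨P, fun x => (hP x).1, fun x g hg => (hP x).2 g hg, fun x g hg hle => ?_⟩
  apply hu x g
  refine ⟨hg, fun k hk => hle.trans ((hP x).2 k hk)⟩

/-- distance to the nearest point -/
def rr (P : E → E) (x : E) : ℝ := ‖x - P x‖

section
variable {M : Set E} {P : E → E}

theorem rr_nonneg (x : E) : 0 ≤ rr P x := norm_nonneg _

theorem Proj.rr_le (h : Proj M P) (x : E) {g : E} (hg : g ∈ M) : rr P x ≤ ‖x - g‖ := h.le x g hg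

theorem Proj.eq_of_le (h : Proj M P) {x g : E} (hg : g ∈ M) (hle : ‖x - g‖ ≤ rr P x) : g = P x :=
  h.uniq x g hg hle

theorem Proj.rr_le_add (h : Proj M P) (x y : E) : rr P x ≤ rr P y + ‖x - y‖ := by
  have h1 := h.rr_le x (h.mem y)
  have h2 : ‖x - P y‖ ≤ ‖x - y‖ + ‖y - P y‖ := by
    have := norm_add_le (x - y) (y - P y)
    simpa using this
  unfold rr at *
  linarith

theorem Proj.continuous_rr (h : Proj M P) : Continuous (rr P) := by
  have : LipschitzWith 1 (rr P) := by
    apply LipschitzWith.of_le_add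
    intro x y
    rw [dist_eq_norm]
    exact h.rr_le_add x y
  exact this.continuous

theorem Proj.rr_eq_zero_iff (h : Proj M P) (x : E) : rr P x = 0 ↔ x ∈ M := by
  constructor
  · intro h0
    have : x = P x := by
      have := norm_eq_zero.1 (show ‖x - P x‖ = 0 from h0)
      exact sub_eq_zero.1 this
    rw [this]; exact h.mem x
  · intro hx
    have := h.rr_le x hx
    have h2 := rr_nonneg (P := P) x
    simp at this
    linarith

theorem Proj.rr_pos (h : Proj M P) {x : E} (hx : x ∉ M) : 0 < rr P x := by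
  rcases lt_or_eq_of_le (rr_nonneg (P := P) x) with h1 | h1
  · exact h1
  · exact absurd ((h.rr_eq_zero_iff x).1 h1.symm) hx

theorem Proj.notMem_of_pos (h : Proj M P) {x : E} (hx : 0 < rr P x) : x ∉ M := by
  intro h1
  rw [(h.rr_eq_zero_iff x).2 h1] at hx
  exact lt_irrefl _ hx

theorem Proj.isClosed (h : Proj M P) : IsClosed M := by
  have : M = rr P ⁻¹' {0} := by
    ext x; simp [h.rr_eq_zero_iff x]
  rw [this]
  exact isClosed_singleton.preimage h.continuous_rr

theorem Proj.eq_of_mem (h : Proj M P) {x : E} (hx : x ∈ M) : P x = x := by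
  have := (h.rr_eq_zero_iff x).2 hx
  have := norm_eq_zero.1 (show ‖x - P x‖ = 0 from this)
  exact (sub_eq_zero.1 this).symm

theorem Proj.continuous [FiniteDimensional ℝ E] (h : Proj M P) : Continuous P := by
  rw [continuous_iff_continuousAt]
  intro x
  have hK : IsCompact (closedBall x (rr P x + 2)) := isCompact_closedBall _ _
  refine hK.tendsto_nhds_of_unique_mapClusterPt ?_ ?_
  · have h1 : ∀ᶠ y in 𝓝 x, ‖y - x‖ < 1 := by
      have := Metric.ball_mem_nhds x (zero_lt_one)
      filter_upwards [this] with y hy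
      simpa [dist_eq_norm] using hy
    filter_upwards [h1] with y hy
    rw [mem_closedBall, dist_eq_norm]
    have h2 := h.rr_le_add y x
    have h3 : ‖P y - x‖ ≤ ‖P y - y‖ + ‖y - x‖ := by
      have := norm_add_le (P y - y) (y - x)
      simpa using this
    have h4 : ‖P y - y‖ = rr P y := by rw [norm_sub_rev]; rfl
    linarith
  · intro g _ hg
    have hmem : g ∈ M := by
      have : ClusterPt g (𝓟 M) := by
        refine ClusterPt.mono hg ?_
        simp only [le_principal_iff, mem_map]
        exact Filter.univ_mem' (fun y => h.mem y)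
      exact h.isClosed.closure_subset (mem_closure_iff_clusterPt.2 this)
    apply h.eq_of_le hmem
    apply le_of_forall_pos_le_add
    intro ε hε
    have hf : ∃ᶠ y in 𝓝 x, P y ∈ ball g (ε / 3) := by
      have := hg.frequently (Metric.ball_mem_nhds g (by positivity : 0 < ε / 3))
      exact this
    have he : ∀ᶠ y in 𝓝 x, y ∈ ball x (ε / 3) := Metric.ball_mem_nhds x (by positivity)
    obtain ⟨y, hy1, hy2⟩ := (hf.and_eventually he).exists
    rw [mem_ball, dist_eq_norm] at hy1 hy2
    have h1 : ‖x - g‖ ≤ ‖x - y‖ + ‖y - P y‖ + ‖P y - g‖ := by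
      have e : x - g = (x - y) + (y - P y) + (P y - g) := by abel
      rw [e]
      exact norm_add₃_le
    have h2 := h.rr_le_add y x
    have h3 : ‖x - y‖ = ‖y - x‖ := norm_sub_rev _ _
    have h4 : ‖y - P y‖ = rr P y := rfl
    linarith

/-- End lemma. -/
theorem Proj.end_lemma (h : Proj M P) {x z : E} {t : ℝ} (h1 : ‖z - x‖ ≤ t)
    (h2 : rr P x + t ≤ rr P z) : P z = P x := by
  symm
  apply h.eq_of_le (h.mem x)
  have : ‖z - P x‖ ≤ ‖z - x‖ + ‖x - P x‖ := by
    have := norm_add_le (z - x) (x - P x)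
    simpa using this
  have h3 : ‖x - P x‖ = rr P x := rfl
  linarith

/-- Moving towards the set: if the distance drops at full speed the projection is unchanged. -/
theorem Proj.fwd_lemma (h : Proj M P) {x z : E} {t : ℝ} (h1 : ‖z - x‖ ≤ t)
    (h2 : rr P z ≤ rr P x - t) : P z = P x := by
  apply h.eq_of_le (h.mem z)
  have : ‖x - P z‖ ≤ ‖x - z‖ + ‖z - P z‖ := by
    have := norm_add_le (x - z) (z - P z)
    simpa using this
  have h3 : ‖z - P z‖ = rr P z := rfl
  rw [norm_sub_rev] at h1
  linarith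

/-- Stability of the projection along almost optimal retreats. -/
theorem Proj.stab [FiniteDimensional ℝ E] (h : Proj M P) (x : E) (T : ℝ) {η : ℝ} (hη : 0 < η) :
    ∃ ε > 0, ∀ t ∈ Icc 0 T, ∀ z : E, ‖z - x‖ ≤ t → rr P x + t - ε ≤ rr P z →
      ‖P z - P x‖ ≤ η := by
  let K : Set (ℝ × E) := {q | q ∈ (Icc 0 T) ×ˢ (closedBall x T) ∧ ‖q.2 - x‖ ≤ q.1 ∧
    η ≤ ‖P q.2 - P x‖}
  have hKc : IsCompact K := by
    have hc : IsCompact ((Icc (0:ℝ) T) ×ˢ (closedBall x T)) :=
      isCompact_Icc.prod (isCompact_closedBall _ _)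
    have hPc := h.continuous
    have c1 : Continuous fun q : ℝ × E => ‖q.2 - x‖ := by fun_prop
    have c2 : Continuous fun q : ℝ × E => ‖P q.2 - P x‖ := by fun_prop
    have hcl : IsClosed {q : ℝ × E | ‖q.2 - x‖ ≤ q.1 ∧ η ≤ ‖P q.2 - P x‖} :=
      (isClosed_le c1 continuous_fst).inter (isClosed_le continuous_const c2)
    exact hc.inter_right hcl
  let φ : ℝ × E → ℝ := fun q => rr P x + q.1 - rr P q.2
  have hφ : Continuous φ := by
    have := h.continuous_rr
    fun_prop
  have hpos : ∀ q ∈ K, 0 < φ q := by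
    intro q hq
    by_contra hcon
    have hle : rr P x + q.1 ≤ rr P q.2 := by
      have : φ q ≤ 0 := not_lt.1 hcon
      simp only [φ] at this
      linarith
    have := h.end_lemma hq.2.1 hle
    have h3 := hq.2.2
    rw [this] at h3
    simp at h3
    linarith
  rcases K.eq_empty_or_nonempty with hK | hK
  · refine ⟨1, one_pos, fun t ht z hz _ => ?_⟩
    by_contra hcon
    have : ((t, z) : ℝ × E) ∈ K := by
      refine ⟨⟨ht, ?_⟩, hz, (not_le.1 hcon).le⟩
      rw [mem_closedBall, dist_eq_norm]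
      exact hz.trans ht.2
    rw [hK] at this
    exact this
  · obtain ⟨q, hq, hmin⟩ := hKc.exists_isMinOn hK hφ.continuousOn
    refine ⟨φ q / 2, half_pos (hpos q hq), fun t ht z hz hr => ?_⟩
    by_contra hcon
    have hmem : ((t, z) : ℝ × E) ∈ K := by
      refine ⟨⟨ht, ?_⟩, hz, (not_le.1 hcon).le⟩
      rw [mem_closedBall, dist_eq_norm]
      exact hz.trans ht.2
    have h1 : φ q ≤ φ (t, z) := hmin hmem
    have h2 := hpos q hq
    simp only [φ] at h1 h2 hr
    linarith

end

end Run7.h516
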