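import Pool.Agent.Run7.h516.Good

/-! Contact points and the partial inf-convolution of the distance function. -/

namespace Run7.h516

open Metric Set Filter Topology

set_option linter.unusedSectionVars false

variable {E : Type*} [NormedAddCommGroup E] [NormedSpace ℝ E] [FiniteDimensional ℝ E]

/-- an auxiliary inner product on `E` -/
noncomputable def Bl (v : E) : E →L[ℝ] ℝ :=
  (innerSL ℝ (toEuclidean v)).comp
    (toEuclidean : E ≃L[ℝ] EuclideanSpace ℝ (Fin (Module.finrank ℝ E))).toContinuousLinearMap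

/-- its quadratic form -/
noncomputable def Q (v : E) : ℝ := Bl v v

theorem Bl_apply (v w : E) : Bl v w = inner ℝ (toEuclidean v) (toEuclidean w) := rfl

theorem Q_eq (v : E) : Q v = ‖toEuclidean v‖ ^ 2 := by
  rw [Q, Bl_apply, real_inner_self_eq_norm_sq]

theorem Bl_comm (v w : E) : Bl v w = Bl w v := by
  rw [Bl_apply, Bl_apply, real_inner_comm]

theorem Q_nonneg (v : E) : 0 ≤ Q v := by rw [Q_eq]; positivity

theorem eq_zero_of_Q {v : E} (h : Q v ≤ 0) : v = 0 := by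
  rw [Q_eq] at h
  have h1 : ‖toEuclidean v‖ = 0 := by
    have := norm_nonneg (toEuclidean v)
    nlinarith
  have h2 := norm_eq_zero.1 h1
  simpa using h2

theorem Bl_add_left (a b w : E) : Bl (a + b) w = Bl a w + Bl b w := by
  simp only [Bl_apply, map_add, inner_add_left]

theorem Bl_smul_left (c : ℝ) (a w : E) : Bl (c • a) w = c * Bl a w := by
  simp only [Bl_apply, map_smul, real_inner_smul_left]

theorem Q_add (a b : E) : Q (a + b) = Q a + 2 * Bl a b + Q b := by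
  rw [Q, Q, Q, Bl_add_left, map_add, map_add, Bl_comm b a]; ring

theorem Q_smul (c : ℝ) (a : E) : Q (c • a) = c ^ 2 * Q a := by
  rw [Q, Q, Bl_smul_left, map_smul, smul_eq_mul]; ring

theorem Q_zero : Q (0 : E) = 0 := by rw [Q, map_zero]

theorem continuous_Q : Continuous (Q : E → ℝ) := by
  have : (Q : E → ℝ) = fun v => ‖toEuclidean v‖ ^ 2 := funext Q_eq
  rw [this]
  have h1 : Continuous (fun v : E => toEuclidean v) := toEuclidean.continuous
  fun_prop

theorem Q_small {U : Set E} (hU : U ∈ 𝓝 (0 : E)) : ∃ ρ > 0, ∀ v : E, Q v ≤ ρ → v ∈ U := by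
  have h1 : Tendsto (fun w : EuclideanSpace ℝ (Fin (Module.finrank ℝ E)) =>
      (toEuclidean.symm w : E)) (𝓝 0) (𝓝 0) := by
    have := (toEuclidean (E := E)).symm.continuous.tendsto 0
    simpa using this
  have h2 := h1 hU
  rw [mem_map] at h2
  obtain ⟨ε, hε, hb⟩ := Metric.mem_nhds_iff.1 h2
  refine ⟨(ε / 2) ^ 2, by positivity, fun v hv => ?_⟩
  rw [Q_eq] at hv
  have h3 : ‖toEuclidean v‖ ≤ ε / 2 := by
    have := abs_le_of_sq_le_sq hv (by positivity)
    rwa [abs_of_nonneg (norm_nonneg _)] at this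
  have h4 : toEuclidean v ∈ ball (0 : EuclideanSpace ℝ (Fin (Module.finrank ℝ E))) ε := by
    rw [mem_ball_zero_iff]; linarith
  have := hb h4
  simpa using this

theorem isCompact_Q (L : Submodule ℝ E) (ρ : ℝ) : IsCompact {v : E | v ∈ L ∧ Q v ≤ ρ} := by
  have h1 : IsCompact {v : E | Q v ≤ ρ} := by
    have h2 : IsCompact ((toEuclidean (E := E)).toHomeomorph ⁻¹'
        (closedBall (0 : EuclideanSpace ℝ (Fin (Module.finrank ℝ E))) (max ρ 0).sqrt)) :=
      (toEuclidean (E := E)).toHomeomorph.isCompact_preimage.2 (isCompact_closedBall _ _)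
    refine h2.of_isClosed_subset (isClosed_le continuous_Q continuous_const) ?_
    intro v hv
    have hv' : Q v ≤ ρ := hv
    rw [Q_eq] at hv'
    rw [mem_preimage, mem_closedBall_zero_iff]
    apply Real.le_sqrt_of_sq_le
    exact hv'.trans (le_max_left _ _)
  have h3 : IsClosed (L : Set E) := L.closed_of_finiteDimensional
  have : {v : E | v ∈ L ∧ Q v ≤ ρ} = {v : E | Q v ≤ ρ} ∩ (L : Set E) := by
    ext v; simp [and_comm]
  rw [this]
  exact h1.inter_right h3

/-- contact from below along `L` at a bad point -/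
def Contact (M : Set E) (P : E → E) (L : Submodule ℝ E) (x : E) (p : E →L[ℝ] ℝ) (c : ℝ) : Prop :=
  0 < c ∧ x ∈ V0 M P ∧ ∀ᶠ v in 𝓝 (0 : E), v ∈ L → rr P x + p v + c * Q v ≤ rr P (x + v)

/-- the function being minimised -/
noncomputable def FF (P : E → E) (p : E →L[ℝ] ℝ) (c : ℝ) (z v : E) : ℝ :=
  rr P (z + v) - p v - c * Q v

/-- `rh` is the minimum over `K` of `FF` -/
structure RH (P : E → E) (K : Set E) (p : E →L[ℝ] ℝ) (c : ℝ) (rh : E → ℝ) : Prop where
  att : ∀ z, ∃ v ∈ K, rh z = FF P p c z v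
  le : ∀ z, ∀ w ∈ K, rh z ≤ FF P p c z w

section
variable {M : Set E} {P : E → E}

theorem Proj.exists_RH (h : Proj M P) {K : Set E} (hK : IsCompact K) (hne : K.Nonempty)
    (p : E →L[ℝ] ℝ) (c : ℝ) : ∃ rh, RH P K p c rh := by
  have hrc := h.continuous_rr
  have hQ : Continuous (Q : E → ℝ) := continuous_Q
  have key : ∀ z : E, ∃ v ∈ K, IsMinOn (FF P p c z) K v := by
    intro z
    apply hK.exists_isMinOn hne
    apply Continuous.continuousOn
    unfold FF
    fun_prop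
  choose v hv hmin using key
  refine ⟨fun z => FF P p c z (v z), fun z => ⟨v z, hv z, rfl⟩, fun z w hw => ?_⟩
  exact hmin z hw

theorem RH.le_add (h : Proj M P) {K : Set E} {p : E →L[ℝ] ℝ} {c : ℝ} {rh : E → ℝ}
    (hR : RH P K p c rh) (z z' : E) : rh z ≤ rh z' + ‖z - z'‖ := by
  obtain ⟨v, hv, he⟩ := hR.att z'
  have h1 := hR.le z v hv
  have h2 := h.rr_le_add (z + v) (z' + v)
  have e : z + v - (z' + v) = z - z' := by abel
  rw [e] at h2
  unfold FF at *
  linarith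

theorem RH.lipschitz (h : Proj M P) {K : Set E} {p : E →L[ℝ] ℝ} {c : ℝ} {rh : E → ℝ}
    (hR : RH P K p c rh) : LipschitzWith 1 rh := by
  apply LipschitzWith.of_le_add
  intro x y
  rw [dist_eq_norm]
  exact hR.le_add h x y

/-- The fundamental concavity lemma. -/
theorem Proj.conc (h : Proj M P) {L : Submodule ℝ E}
    (hmax : ∀ L' : Submodule ℝ E, L < L' → ∀ x p c, ¬ Contact M P L' x p c)
    {x₁ : E} {p : E →L[ℝ] ℝ} {c c' : ℝ} (hC : Contact M P L x₁ p c) (hc0 : 0 < c') (hc : c' < c)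
    {U : Set E} (hU : U ∈ 𝓝 (0 : E)) :
    ∃ ρ > 0, ∃ δ > 0, ∃ rh : E → ℝ, RH P {v | v ∈ L ∧ Q v ≤ ρ} p c' rh ∧
      (∀ v ∈ L, Q v ≤ ρ → v ∈ U) ∧
      (∀ v ∈ L, Q v ≤ ρ → rr P x₁ + p v + c * Q v ≤ rr P (x₁ + v)) ∧
      (∀ z ∈ ball x₁ δ, ∀ v ∈ L, Q v ≤ ρ → z + v ∈ V0 M P) ∧
      (∀ z ∈ ball x₁ δ, ∀ v ∈ L, Q v ≤ ρ → rh z = FF P p c' z v → Q v < ρ) ∧
      (∀ a ∈ ball x₁ δ, ∀ b ∈ ball x₁ δ, b - a ∉ L → ∀ t ∈ Icc (0 : ℝ) 1,
        (1 - t) * rh a + t * rh b ≤ rh (a + t • (b - a))) := by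
  obtain ⟨hcpos, hx₁, hev⟩ := hC
  obtain ⟨δ₁, hδ₁, hball⟩ := Metric.isOpen_iff.1 h.isOpen_V0 x₁ hx₁
  have hU2 : U ∩ {v : E | v ∈ L → rr P x₁ + p v + c * Q v ≤ rr P (x₁ + v)} ∩
      ball 0 (δ₁ / 2) ∈ 𝓝 (0 : E) :=
    inter_mem (inter_mem hU hev) (ball_mem_nhds _ (by positivity))
  obtain ⟨ρ, hρ, hρU⟩ := Q_small hU2
  set δ := min (δ₁ / 2) ((c - c') * ρ / 2) with hδdef
  have hcc : 0 < c - c' := by linarith
  have hδ : 0 < δ := lt_min (by positivity) (by positivity)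
  have hδ1 : δ ≤ δ₁ / 2 := min_le_left _ _
  have hδ2 : δ ≤ (c - c') * ρ / 2 := min_le_right _ _
  have hKne : {v : E | v ∈ L ∧ Q v ≤ ρ}.Nonempty := ⟨0, L.zero_mem, by rw [Q_zero]; exact hρ.le⟩
  obtain ⟨rh, hR⟩ := h.exists_RH (isCompact_Q L ρ) hKne p c'
  have hcontact : ∀ v ∈ L, Q v ≤ ρ → rr P x₁ + p v + c * Q v ≤ rr P (x₁ + v) :=
    fun v hv hq => (hρU v hq).1.2 hv
  have hV : ∀ z ∈ ball x₁ δ, ∀ v ∈ L, Q v ≤ ρ → z + v ∈ V0 M P := by
    intro z hz v _ hq
    apply hball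
    have h1 := (hρU v hq).2
    rw [mem_ball_zero_iff] at h1
    rw [mem_ball, dist_eq_norm] at hz ⊢
    have e : z + v - x₁ = (z - x₁) + v := by abel
    rw [e]
    have := norm_add_le (z - x₁) v
    linarith
  have hint : ∀ z ∈ ball x₁ δ, ∀ v ∈ L, Q v ≤ ρ → rh z = FF P p c' z v → Q v < ρ := by
    intro z hz v hv hq he
    rw [mem_ball, dist_eq_norm] at hz
    have h0 := hR.le z 0 ⟨L.zero_mem, by rw [Q_zero]; exact hρ.le⟩
    have h1 : FF P p c' z 0 = rr P z := by simp [FF, Q_zero]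
    have h2 := h.rr_le_add z x₁
    have h3 := hcontact v hv hq
    have h4 := h.rr_le_add (x₁ + v) (z + v)
    have e : x₁ + v - (z + v) = -(z - x₁) := by abel
    rw [e, norm_neg] at h4
    rw [he, h1] at h0
    unfold FF at h0
    have h5 : (c - c') * Q v < (c - c') * ρ := by nlinarith
    exact lt_of_mul_lt_mul_left h5 hcc.le
  refine ⟨ρ, hρ, δ, hδ, rh, hR, fun v hv hq => (hρU v hq).1.1, hcontact, hV, hint, ?_⟩
  -- concavity
  intro a ha b hb hab t₁ ht₁
  by_contra hcon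
  replace hcon := not_le.1 hcon
  set u := b - a with hu
  have hrhc : Continuous rh := (hR.lipschitz h).continuous
  set hh : ℝ → ℝ := fun t => rh (a + t • u) - (1 - t) * rh a - t * rh b with hhdef
  have hhc : Continuous hh := by
    rw [hhdef]; fun_prop
  have hh0 : hh 0 = 0 := by simp [hhdef]
  have hh1 : hh 1 = 0 := by simp [hhdef, hu]
  set m := - hh t₁ with hm
  have hmpos : 0 < m := by
    rw [hm, hhdef]
    simp only
    linarith
  obtain ⟨t, ht, htmin⟩ := isCompact_Icc.exists_isMinOn (nonempty_Icc.2 (zero_le_one' ℝ))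
    (f := fun t => hh t - m * (t - 1 / 2) ^ 2) (by fun_prop)
  have hmin : ∀ s ∈ Icc (0 : ℝ) 1, hh t - m * (t - 1 / 2) ^ 2 ≤ hh s - m * (s - 1 / 2) ^ 2 :=
    fun s hs => htmin hs
  have hval : hh t - m * (t - 1 / 2) ^ 2 ≤ - m := by
    have := hmin t₁ ht₁
    have h2 : hh t₁ = -m := by rw [hm]; ring
    rw [h2] at this
    nlinarith [mul_nonneg hmpos.le (sq_nonneg (t₁ - 1 / 2))]
  have ht0 : 0 < t := by
    rcases ht.1.eq_or_lt with h0 | h0
    · rw [← h0, hh0] at hval; norm_num at hval; nlinarith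
    · exact h0
  have ht1 : t < 1 := by
    rcases ht.2.eq_or_lt with h0 | h0
    · rw [h0, hh1] at hval; norm_num at hval; nlinarith
    · exact h0
  set z := a + t • u with hz
  have hzball : z ∈ ball x₁ δ := by
    have hconv := convex_ball x₁ δ
    have := hconv ha hb (a := 1 - t) (b := t) (by linarith) ht0.le (by ring)
    have e : (1 - t) • a + t • b = z := by
      rw [hz, hu, smul_sub, sub_smul, one_smul]; abel
    rwa [e] at this
  obtain ⟨v, ⟨hvL, hvQ⟩, hve⟩ := hR.att z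
  have hvlt := hint z hzball v hvL hvQ hve
  have hyV := hV z hzball v hvL hvQ
  obtain ⟨φ, hφu, hφL⟩ := Submodule.exists_le_ker_of_notMem hab
  -- normalise
  set ψ : E →L[ℝ] ℝ := (φ u)⁻¹ • LinearMap.toContinuousLinearMap φ with hψ
  have hψu : ψ u = 1 := by simp [hψ, hφu]
  have hψL : ∀ w ∈ L, ψ w = 0 := by
    intro w hw
    have : φ w = 0 := hφL hw
    simp [hψ, this]
  set κ := 2 * m * (t - 1 / 2) + (rh b - rh a) with hκ
  set p' : E →L[ℝ] ℝ := κ • ψ + (p + (2 * c') • Bl v).comp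
    (ContinuousLinearMap.id ℝ E - ψ.smulRight u) with hp'
  have hp'app : ∀ w, p' w = κ * ψ w + p (w - ψ w • u) + 2 * c' * Bl v (w - ψ w • u) := by
    intro w
    simp [hp', mul_sub]
    ring
  -- the constant
  obtain ⟨c'', hc''0, hc''1, hc''2⟩ : ∃ c'' : ℝ, 0 < c'' ∧ 2 * c'' * Q u ≤ m ∧ 2 * c'' ≤ c' := by
    have hQu : 0 ≤ Q u := Q_nonneg u
    refine ⟨min (c' / 2) (m / (2 * (Q u + 1))), lt_min (by positivity) (by positivity), ?_, ?_⟩
    · have h1 : min (c' / 2) (m / (2 * (Q u + 1))) ≤ m / (2 * (Q u + 1)) := min_le_right _ _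
      have h2 : m / (2 * (Q u + 1)) * (2 * (Q u + 1)) = m := by field_simp
      have h3 : 0 ≤ min (c' / 2) (m / (2 * (Q u + 1))) :=
        le_min (by positivity) (by positivity)
      nlinarith
    · have h1 : min (c' / 2) (m / (2 * (Q u + 1))) ≤ c' / 2 := min_le_left _ _
      linarith
  have hlt : L < L ⊔ Submodule.span ℝ {u} := by
    refine lt_of_le_of_ne le_sup_left ?_
    intro he
    apply hab
    rw [he]
    exact Submodule.mem_sup_right (Submodule.mem_span_singleton_self u)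
  refine hmax _ hlt (z + v) p' c'' ⟨hc''0, hyV, ?_⟩
  -- small w
  have hsm1 : ∀ᶠ w in 𝓝 (0 : E), t + ψ w ∈ Ioo (0 : ℝ) 1 := by
    have hc : Continuous fun w : E => t + ψ w := by fun_prop
    have : Tendsto (fun w : E => t + ψ w) (𝓝 0) (𝓝 t) := by
      have := hc.tendsto 0
      simpa using this
    exact this (isOpen_Ioo.mem_nhds ⟨ht0, ht1⟩)
  have hsm2 : ∀ᶠ w in 𝓝 (0 : E), Q (v + (w - ψ w • u)) < ρ := by
    have hQc : Continuous (Q : E → ℝ) := continuous_Q
    have hc : Continuous fun w : E => Q (v + (w - ψ w • u)) := by fun_prop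
    have : Tendsto (fun w : E => Q (v + (w - ψ w • u))) (𝓝 0) (𝓝 (Q v)) := by
      have := hc.tendsto 0
      simpa using this
    exact this (isOpen_Iio.mem_nhds hvlt)
  filter_upwards [hsm1, hsm2] with w hw1 hw2 hwL
  set τ := ψ w with hτ
  set y := w - τ • u with hy
  have hyL : y ∈ L := by
    obtain ⟨l, hl, k, hk, hlk⟩ := Submodule.mem_sup.1 hwL
    obtain ⟨r, hr⟩ := Submodule.mem_span_singleton.1 hk
    have hτr : τ = r := by
      rw [hτ, ← hlk, ← hr, map_add, map_smul, hψL l hl, hψu]; simp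
    have : y = l := by
      rw [hy, ← hlk, ← hr, hτr]; abel
    rw [this]; exact hl
  have h1 := hR.le (a + (t + τ) • u) (v + y) ⟨L.add_mem hvL hyL, hw2.le⟩
  have h2 := hmin (t + τ) ⟨hw1.1.le, hw1.2.le⟩
  have e1 : a + (t + τ) • u + (v + y) = z + v + w := by
    rw [hz, hy, add_smul]; abel
  have e2 : Q w ≤ 2 * τ ^ 2 * Q u + 2 * Q y := by
    have hwe : w = τ • u + y := by rw [hy]; abel
    have q1 : Q w = τ ^ 2 * Q u + 2 * Bl (τ • u) y + Q y := by
      conv_lhs => rw [hwe]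
      rw [Q_add, Q_smul]
    have q2 : 0 ≤ τ ^ 2 * Q u - 2 * Bl (τ • u) y + Q y := by
      have := Q_nonneg (τ • u + (-1 : ℝ) • y)
      rw [Q_add, Q_smul, Q_smul, map_smul] at this
      simp only [smul_eq_mul] at this
      linarith
    linarith
  rw [hp'app w, ← hτ, ← hy]
  unfold FF at h1
  rw [e1] at h1
  have e3 : Q (v + y) = Q v + 2 * Bl v y + Q y := Q_add v y
  have e4 : p (v + y) = p v + p y := map_add p v y
  have e5 : rh (a + (t + τ) • u) = hh (t + τ) + (1 - (t + τ)) * rh a + (t + τ) * rh b := by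
    rw [hhdef]; ring
  have e6 : rh z = hh t + (1 - t) * rh a + t * rh b := by
    rw [hhdef, hz]; ring
  have e7 : rh z = rr P (z + v) - p v - c' * Q v := hve
  have e8 : m * (t + τ - 1 / 2) ^ 2 = m * (t - 1 / 2) ^ 2 + 2 * m * (t - 1 / 2) * τ + m * τ ^ 2 := by
    ring
  have e9 : c'' * Q w ≤ m * τ ^ 2 + c' * Q y := by
    have f1 : c'' * Q w ≤ c'' * (2 * τ ^ 2 * Q u + 2 * Q y) :=
      mul_le_mul_of_nonneg_left e2 hc''0.le
    have f2 : (2 * c'' * Q u) * τ ^ 2 ≤ m * τ ^ 2 := mul_le_mul_of_nonneg_right hc''1 (sq_nonneg _)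
    have f3 : (2 * c'') * Q y ≤ c' * Q y := mul_le_mul_of_nonneg_right hc''2 (Q_nonneg _)
    linarith
  have e10 : κ * τ = 2 * m * (t - 1 / 2) * τ + (rh b - rh a) * τ := by rw [hκ]; ring
  rw [e3, e4] at h1
  linarith

end

end Run7.h516
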