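import Pool.Agent.Run7.h516.Contact

/-! Faces of the unit ball, relative cores and a new exposed point. -/

namespace Run7.h516

open Metric Set Filter Topology

set_option linter.unusedSectionVars false

variable {E : Type*} [NormedAddCommGroup E] [NormedSpace ℝ E] [FiniteDimensional ℝ E]

/-- the face of the unit ball exposed by `N` -/
def Face (N : E →L[ℝ] ℝ) : Set E := {b | ‖b‖ ≤ 1 ∧ N b = 1}

/-- the relative core of the face -/
def Core (N : E →L[ℝ] ℝ) : Set E :=
  {g | g ∈ Face N ∧ ∀ s ∈ Face N, ∃ l : ℝ, 0 < l ∧ l < 1 ∧ ∃ g' ∈ Face N,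
    g = l • s + (1 - l) • g'}

theorem convex_Face (N : E →L[ℝ] ℝ) : Convex ℝ (Face N) := by
  intro a ha b hb s t hs ht hst
  refine ⟨?_, ?_⟩
  · refine (norm_add_le _ _).trans ?_
    rw [norm_smul, norm_smul, Real.norm_of_nonneg hs, Real.norm_of_nonneg ht]
    nlinarith [mul_le_mul_of_nonneg_left ha.1 hs, mul_le_mul_of_nonneg_left hb.1 ht]
  · rw [map_add, map_smul, map_smul, ha.2, hb.2]
    simpa using hst

theorem isCompact_Face (N : E →L[ℝ] ℝ) : IsCompact (Face N) := by
  have h1 : IsClosed {b : E | N b = 1} := isClosed_eq N.continuous continuous_const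
  have h2 : Face N = closedBall 0 1 ∩ {b : E | N b = 1} := by
    ext b; simp [Face]
  rw [h2]
  exact (isCompact_closedBall _ _).inter_right h1

theorem core_combo {N : E →L[ℝ] ℝ} {s g : E} (hs : s ∈ Core N) (hg : g ∈ Face N) {α : ℝ}
    (h0 : 0 < α) (h1 : α ≤ 1) : α • s + (1 - α) • g ∈ Core N := by
  have hF := convex_Face N hs.1 hg h0.le (sub_nonneg.2 h1) (by ring)
  refine ⟨hF, fun s' hs' => ?_⟩
  obtain ⟨l, hl0, hl1, g', hg', he⟩ := hs.2 s' hs'
  have hαl0 : 0 < α * l := mul_pos h0 hl0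
  have hαl : α * l < 1 := by nlinarith
  have hpos : 0 < 1 - α * l := by linarith
  refine ⟨α * l, hαl0, hαl, (α * (1 - l) / (1 - α * l)) • g' + ((1 - α) / (1 - α * l)) • g, ?_, ?_⟩
  · apply convex_Face N hg' hg
    · exact div_nonneg (mul_nonneg h0.le (by linarith)) hpos.le
    · exact div_nonneg (by linarith) hpos.le
    · field_simp
      ring
  · rw [smul_add, smul_smul, smul_smul, mul_div_cancel₀ _ hpos.ne', mul_div_cancel₀ _ hpos.ne', he,
      smul_add, smul_smul, smul_smul, add_assoc]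

/-- feasible directions -/
def Dir (N : E →L[ℝ] ℝ) (s : E) : Set E := {d | ∃ ε : ℝ, 0 < ε ∧ s + ε • d ∈ Face N}

theorem dir_shrink {N : E →L[ℝ] ℝ} {s d : E} (hs : s ∈ Face N) {ε ε' : ℝ} (h0 : 0 ≤ ε')
    (hle : ε' ≤ ε) (hε : 0 < ε) (h : s + ε • d ∈ Face N) : s + ε' • d ∈ Face N := by
  have h1 : 0 ≤ ε' / ε := by positivity
  have h2 : ε' / ε ≤ 1 := by rw [div_le_one hε]; exact hle
  have := convex_Face N hs h (sub_nonneg.2 h2) h1 (by ring)
  have e : (1 - ε' / ε) • s + (ε' / ε) • (s + ε • d) = s + ε' • d := by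
    rw [smul_add, smul_smul, div_mul_cancel₀ _ hε.ne', sub_smul, one_smul]
    abel
  rwa [e] at this

theorem dir_add {N : E →L[ℝ] ℝ} {s d d' : E} (hs : s ∈ Face N) (h : d ∈ Dir N s)
    (h' : d' ∈ Dir N s) : d + d' ∈ Dir N s := by
  obtain ⟨ε, hε, h1⟩ := h
  obtain ⟨ε', hε', h2⟩ := h'
  have hm : 0 < min ε ε' := lt_min hε hε'
  have h3 := dir_shrink hs hm.le (min_le_left _ _) hε h1
  have h4 := dir_shrink hs hm.le (min_le_right _ _) hε' h2
  refine ⟨min ε ε' / 2, by positivity, ?_⟩
  have := convex_Face N h3 h4 (a := 1 / 2) (b := 1 / 2) (by norm_num) (by norm_num) (by norm_num)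
  have e : (1 / 2 : ℝ) • (s + min ε ε' • d) + (1 / 2 : ℝ) • (s + min ε ε' • d') =
      s + (min ε ε' / 2) • (d + d') := by
    module
  rwa [e] at this

theorem dir_smul {N : E →L[ℝ] ℝ} {s d : E} (h : d ∈ Dir N s) {a : ℝ} (ha : 0 < a) :
    a • d ∈ Dir N s := by
  obtain ⟨ε, hε, h1⟩ := h
  refine ⟨ε / a, by positivity, ?_⟩
  rwa [smul_smul, div_mul_cancel₀ _ ha.ne']

theorem dir_zero {N : E →L[ℝ] ℝ} {s : E} (hs : s ∈ Face N) : (0 : E) ∈ Dir N s :=
  ⟨1, one_pos, by simpa using hs⟩

theorem core_dir {N : E →L[ℝ] ℝ} {s : E} (hs : s ∈ Core N) {w : E}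
    (hw : w ∈ Submodule.span ℝ (Face N)) :
    w - N w • s ∈ Dir N s ∧ -(w - N w • s) ∈ Dir N s := by
  induction hw using Submodule.span_induction with
  | mem g hg =>
    rw [hg.2, one_smul]
    refine ⟨⟨1, one_pos, by simpa using hg⟩, ?_⟩
    obtain ⟨l, hl0, hl1, g', hg', he⟩ := hs.2 g hg
    have hpos : 0 < 1 - l := by linarith
    refine ⟨l / (1 - l), by positivity, ?_⟩
    have e : s + (l / (1 - l)) • -(g - s) = g' := by
      have h1 : (1 - l) • (s + (l / (1 - l)) • -(g - s)) = (1 - l) • g' := by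
        rw [smul_add, smul_smul, mul_div_cancel₀ _ hpos.ne']
        have h2 : (1 - l) • g' = s - l • g := by
          rw [eq_sub_iff_add_eq, he]; abel
        rw [h2]
        module
      exact smul_right_injective E hpos.ne' h1
    rwa [e]
  | zero => simpa using dir_zero hs.1
  | add x y _ _ hx hy =>
    have e : x + y - N (x + y) • s = (x - N x • s) + (y - N y • s) := by
      rw [map_add, add_smul]; abel
    rw [e, neg_add]
    exact ⟨dir_add hs.1 hx.1 hy.1, dir_add hs.1 hx.2 hy.2⟩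
  | smul a x _ hx =>
    have e : a • x - N (a • x) • s = a • (x - N x • s) := by
      rw [map_smul, smul_sub, smul_smul]; rfl
    rw [e]
    rcases lt_trichotomy a 0 with ha | ha | ha
    · have e2 : a • (x - N x • s) = (-a) • -(x - N x • s) := by rw [smul_neg, neg_smul, neg_neg]
      have e3 : -(a • (x - N x • s)) = (-a) • (x - N x • s) := by rw [neg_smul]
      rw [e3, e2]
      exact ⟨dir_smul hx.2 (by linarith), dir_smul hx.1 (by linarith)⟩
    · rw [ha, zero_smul, neg_zero]
      exact ⟨dir_zero hs.1, dir_zero hs.1⟩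
    · rw [← smul_neg]
      exact ⟨dir_smul hx.1 ha, dir_smul hx.2 ha⟩

/-- exit point of a ray from the core -/
theorem exit_point {N : E →L[ℝ] ℝ} {s z : E} (hs : s ∈ Core N)
    (hz : z ∈ Submodule.span ℝ (Face N)) (hNz : N z = 1) (hzF : z ∉ Face N) :
    ∃ t : ℝ, 0 < t ∧ t < 1 ∧ s + t • (z - s) ∈ Face N ∧ s + t • (z - s) ∉ Core N := by
  let S : Set ℝ := Icc 0 1 ∩ (fun t : ℝ => s + t • (z - s)) ⁻¹' Face N
  have hS : IsCompact S := by
    apply isCompact_Icc.inter_right
    apply (isCompact_Face N).isClosed.preimage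
    fun_prop
  have hne : S.Nonempty := ⟨0, by simp, by simpa using hs.1⟩
  obtain ⟨t, ht, hgr⟩ := hS.exists_isGreatest hne
  have ht1 : t ≠ 1 := by
    rintro rfl
    apply hzF
    have : s + (1 : ℝ) • (z - s) ∈ Face N := ht.2
    simpa using this
  have ht1' : t < 1 := lt_of_le_of_ne ht.1.2 ht1
  have hnc : s + t • (z - s) ∉ Core N := by
    intro hc
    have h1 := (core_dir hc hz).1
    rw [hNz, one_smul] at h1
    obtain ⟨ε, hε, h2⟩ := h1
    -- shrink ε to be at most 1
    have h3 := dir_shrink hc.1 (ε' := min ε 1) (le_min hε.le zero_le_one) (min_le_left _ _) hε h2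
    have hm : 0 < min ε 1 := lt_min hε one_pos
    have e : s + t • (z - s) + min ε 1 • (z - (s + t • (z - s))) =
        s + (t + min ε 1 * (1 - t)) • (z - s) := by
      module
    rw [e] at h3
    have hle : t + min ε 1 * (1 - t) ≤ 1 := by
      have : min ε 1 ≤ 1 := min_le_right _ _
      nlinarith
    have hge : 0 ≤ t + min ε 1 * (1 - t) := by
      have := ht.1.1
      have h4 : 0 ≤ min ε 1 * (1 - t) := mul_nonneg hm.le (by linarith)
      linarith
    have := hgr (show t + min ε 1 * (1 - t) ∈ S from ⟨⟨hge, hle⟩, h3⟩)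
    have h4 : 0 < min ε 1 * (1 - t) := mul_pos hm (by linarith)
    linarith
  refine ⟨t, ?_, ht1', ht.2, hnc⟩
  rcases ht.1.1.eq_or_lt with h0 | h0
  · exfalso
    apply hnc
    rw [← h0]
    simpa using hs
  · exact h0

/-- The final convexity argument: a new exposed point whose norming functionals include all
those of `s`. -/
theorem exposed_of_core {N : E →L[ℝ] ℝ} (hN : ‖N‖ ≤ 1) {s : E} (hs : s ∈ Core N) {η : ℝ}
    (hη : 0 < η)
    (hrel : ∀ s₂ ∈ Face N, s₂ ∉ Core N → ∃ N₂ : E →L[ℝ] ℝ, ‖N₂‖ ≤ 1 ∧ N₂ s₂ = 1 ∧ N₂ s ≤ 1 - η) :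
    ∃ e ∈ Face N, e ∈ (closedBall (0 : E) 1).exposedPoints ℝ := by
  have hQc : Continuous fun g : E => Q (g - s) := continuous_Q.comp (by fun_prop)
  obtain ⟨e₀, he₀, hmax⟩ := (isCompact_Face N).exists_isMaxOn ⟨s, hs.1⟩ hQc.continuousOn
  have hmax' : ∀ g ∈ Face N, Q (g - s) ≤ Q (e₀ - s) := fun g hg => hmax hg
  set ξ := Bl (e₀ - s) with hξ
  have hξlt : ∀ g ∈ Face N, g ≠ e₀ → ξ g < ξ e₀ := by
    intro g hg hne
    have h1 := hmax' g hg
    have e : g - s = (e₀ - s) + (g - e₀) := by abel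
    rw [e, Q_add, ← hξ, map_sub] at h1
    have h2 : 0 < Q (g - e₀) := by
      by_contra hcon
      have := eq_zero_of_Q (not_lt.1 hcon)
      exact hne (sub_eq_zero.1 this)
    linarith
  have hξle : ∀ g ∈ Face N, ξ g ≤ ξ e₀ := by
    intro g hg
    by_cases hge : g = e₀
    · rw [hge]
    · exact (hξlt g hg hge).le
  refine ⟨e₀, he₀, ?_⟩
  have hball : e₀ ∈ closedBall (0 : E) 1 := by
    rw [mem_closedBall_zero_iff]; exact he₀.1
  rcases eq_or_ne s e₀ with hse | hse
  · -- the face is a single point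
    refine ⟨hball, N, fun b hb => ?_⟩
    rw [mem_closedBall_zero_iff] at hb
    have h1 := apply_le_norm hN b
    rw [he₀.2]
    refine ⟨by linarith, fun hge => ?_⟩
    have hbF : b ∈ Face N := ⟨hb, le_antisymm (by linarith) hge⟩
    have h2 := hmax' b hbF
    rw [← hse, sub_self, Q_zero] at h2
    have := eq_zero_of_Q h2
    rw [← hse]
    exact sub_eq_zero.1 this
  · set κ := ξ e₀ - ξ s with hκ
    have hκ0 : 0 < κ := sub_pos.2 (hξlt s hs.1 hse)
    -- the functional F
    set F : E →L[ℝ] ℝ := N + (η / κ) • (ξ - ξ e₀ • N) with hF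
    have hFapp : ∀ w, F w = N w + (η / κ) * (ξ w - ξ e₀ * N w) := by
      intro w; simp [hF]
    have hFe : F e₀ = 1 := by rw [hFapp, he₀.2]; ring
    have hηκ : 0 < η / κ := div_pos hη hκ0
    have hF1 : ∀ z ∈ Submodule.span ℝ (Face N), N z = 1 → F z ≤ ‖z‖ := by
      intro z hz hNz
      rw [hFapp, hNz]
      by_cases hzF : z ∈ Face N
      · have h1 := hξle z hzF
        have h2 := apply_le_norm hN z
        have h3 : η / κ * (ξ z - ξ e₀ * 1) ≤ 0 := by
          apply mul_nonpos_of_nonneg_of_nonpos hηκ.le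
          linarith
        linarith
      · obtain ⟨t, ht0, ht1, htF, htC⟩ := exit_point hs hz hNz hzF
        obtain ⟨N₂, hN₂, hN₂s₂, hN₂s⟩ := hrel _ htF htC
        have h1 : N₂ s + t * (N₂ z - N₂ s) = 1 := by
          rw [map_add, map_smul, map_sub] at hN₂s₂
          simpa using hN₂s₂
        have h2 : N₂ z ≤ ‖z‖ := apply_le_norm hN₂ z
        have h3 : ξ s + t * (ξ z - ξ s) ≤ ξ e₀ := by
          have := hξle _ htF
          rw [map_add, map_smul, map_sub] at this
          simpa using this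
        -- N₂ z = N₂ s + (1 - N₂ s)/t
        have h4 : N₂ z = N₂ s + (1 - N₂ s) / t := by
          field_simp
          linarith
        have h5 : ξ z - ξ s ≤ κ / t := by
          rw [le_div_iff₀ ht0]
          linarith
        have h6 : (1 - N₂ s) / t - (1 - N₂ s) = (1 - N₂ s) * (1 / t - 1) := by
          field_simp
        have h7 : 0 ≤ 1 / t - 1 := by
          rw [sub_nonneg, le_div_iff₀ ht0]; linarith
        have h8 : η * (1 / t - 1) ≤ (1 - N₂ s) * (1 / t - 1) :=
          mul_le_mul_of_nonneg_right (by linarith) h7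
        have h9 : η / κ * (ξ z - ξ e₀ * 1) ≤ η / κ * (κ / t - κ) :=
          mul_le_mul_of_nonneg_left (by linarith) hηκ.le
        have h10 : η / κ * (κ / t - κ) = η * (1 / t - 1) := by
          field_simp
        linarith
    have hF2 : ∀ w ∈ Submodule.span ℝ (Face N), F w ≤ ‖w‖ := by
      intro w hw
      set K := |N w| + 1 with hK
      have hK0 : 0 < K := by positivity
      have ha : 0 < N w + K := by
        have := neg_abs_le (N w)
        linarith
      set z := (N w + K)⁻¹ • (w + K • e₀) with hz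
      have he₀s : e₀ ∈ Submodule.span ℝ (Face N) := Submodule.subset_span he₀
      have hzs : z ∈ Submodule.span ℝ (Face N) :=
        Submodule.smul_mem _ _ (Submodule.add_mem _ hw (Submodule.smul_mem _ _ he₀s))
      have hNz : N z = 1 := by
        rw [hz, map_smul, map_add, map_smul, he₀.2]
        simp only [smul_eq_mul, mul_one]
        exact inv_mul_cancel₀ ha.ne'
      have h1 := hF1 z hzs hNz
      rw [hz, map_smul, map_add, map_smul, hFe, norm_smul, norm_inv, Real.norm_of_nonneg ha.le] at h1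
      simp only [smul_eq_mul, mul_one] at h1
      have h2 : F w + K ≤ ‖w + K • e₀‖ := le_of_mul_le_mul_left h1 (inv_pos.2 ha)
      have h3 : ‖w + K • e₀‖ ≤ ‖w‖ + K := by
        refine (norm_add_le _ _).trans ?_
        rw [norm_smul, Real.norm_of_nonneg hK0.le]
        nlinarith [he₀.1]
      linarith
    have hF3 : ∀ w ∈ Submodule.span ℝ (Face N), ‖F w‖ ≤ ‖w‖ := by
      intro w hw
      rw [Real.norm_eq_abs, abs_le]
      refine ⟨?_, hF2 w hw⟩
      have := hF2 (-w) (Submodule.neg_mem _ hw)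
      rw [map_neg, norm_neg] at this
      linarith
    -- extension
    set W := Submodule.span ℝ (Face N) with hW
    obtain ⟨N₃, hN₃, hN₃n⟩ := exists_extension_norm_eq W (F.comp W.subtypeL)
    have hN₃1 : ‖N₃‖ ≤ 1 := by
      rw [hN₃n]
      apply ContinuousLinearMap.opNorm_le_bound _ zero_le_one
      intro w
      rw [one_mul]
      exact hF3 w.1 w.2
    have hN₃F : ∀ w ∈ W, N₃ w = F w := fun w hw => hN₃ ⟨w, hw⟩
    have he₀W : e₀ ∈ W := Submodule.subset_span he₀
    refine ⟨hball, N + N₃, fun b hb => ?_⟩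
    rw [mem_closedBall_zero_iff] at hb
    have h1 := apply_le_norm hN b
    have h2 := apply_le_norm hN₃1 b
    have h3 : (N + N₃) e₀ = 2 := by
      rw [show (N + N₃) e₀ = N e₀ + N₃ e₀ from rfl, he₀.2, hN₃F e₀ he₀W, hFe]; norm_num
    have h4 : (N + N₃) b = N b + N₃ b := rfl
    rw [h3, h4]
    refine ⟨by linarith, fun hge => ?_⟩
    have hNb : N b = 1 := le_antisymm (by linarith) (by linarith)
    have hN₃b : N₃ b = 1 := le_antisymm (by linarith) (by linarith)
    have hbF : b ∈ Face N := ⟨hb, hNb⟩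
    rw [hN₃F b (Submodule.subset_span hbF), hFapp, hNb] at hN₃b
    by_contra hne
    have h5 := hξlt b hbF hne
    have h6 : η / κ * (ξ b - ξ e₀ * 1) < 0 := by
      apply mul_neg_of_pos_of_neg hηκ
      linarith
    linarith

end Run7.h516
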