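import Pool.Agent.Run7.h516.Sun

/-! Points of the complement whose nearest point carries no supporting hyperplane. -/

namespace Run7.h516

open Metric Set Filter Topology

set_option linter.unusedSectionVars false

variable {E : Type*} [NormedAddCommGroup E] [NormedSpace ℝ E]

theorem apply_le_norm {N : E →L[ℝ] ℝ} (hN : ‖N‖ ≤ 1) (w : E) : N w ≤ ‖w‖ := by
  have h1 := N.le_opNorm w
  have h2 : N w ≤ ‖N w‖ := Real.le_norm_self _
  nlinarith [norm_nonneg w]

/-- `N` separates `x` from `M` and supports `M` at `P x`. -/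
def Sep (M : Set E) (P : E → E) (x : E) (N : E →L[ℝ] ℝ) : Prop :=
  ‖N‖ = 1 ∧ N (P x - x) = rr P x ∧ ∀ g ∈ M, N (P x) ≤ N g

/-- The set of bad points. -/
def V0 (M : Set E) (P : E → E) : Set E := {x | x ∉ M ∧ ∀ N : E →L[ℝ] ℝ, ¬ Sep M P x N}

section
variable {M : Set E} {P : E → E}

theorem Proj.isClosed_sep [FiniteDimensional ℝ E] (h : Proj M P) :
    IsClosed {x | ∃ N : E →L[ℝ] ℝ, Sep M P x N} := by
  let S : Set (E →L[ℝ] ℝ) := sphere 0 1
  have : CompactSpace S := isCompact_iff_compactSpace.1 (isCompact_sphere _ _)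
  have hPc := h.continuous
  have hrc := h.continuous_rr
  let C : Set (E × S) := {q | q.2.1 (P q.1 - q.1) = rr P q.1 ∧ ∀ g ∈ M, q.2.1 (P q.1) ≤ q.2.1 g}
  have hC : IsClosed C := by
    have c1 : Continuous fun q : E × S => q.2.1 (P q.1 - q.1) := by
      have a1 : Continuous fun q : E × S => q.2.1 := continuous_subtype_val.comp continuous_snd
      have a2 : Continuous fun q : E × S => P q.1 - q.1 := by fun_prop
      exact a1.clm_apply a2
    have c2 : Continuous fun q : E × S => rr P q.1 := hrc.comp continuous_fst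
    have c3 : Continuous fun q : E × S => q.2.1 (P q.1) := by
      have a1 : Continuous fun q : E × S => q.2.1 := continuous_subtype_val.comp continuous_snd
      have a2 : Continuous fun q : E × S => P q.1 := by fun_prop
      exact a1.clm_apply a2
    have c4 : ∀ g : E, Continuous fun q : E × S => q.2.1 g := by
      intro g
      have a1 : Continuous fun q : E × S => q.2.1 := continuous_subtype_val.comp continuous_snd
      exact a1.clm_apply continuous_const
    have e : C = {q : E × S | q.2.1 (P q.1 - q.1) = rr P q.1} ∩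
        ⋂ g ∈ M, {q : E × S | q.2.1 (P q.1) ≤ q.2.1 g} := by
      ext q
      simp [C]
    rw [e]
    refine (isClosed_eq c1 c2).inter ?_
    exact isClosed_biInter fun g _ => isClosed_le c3 (c4 g)
  have himg : {x | ∃ N : E →L[ℝ] ℝ, Sep M P x N} = Prod.fst '' C := by
    ext x
    constructor
    · rintro ⟨N, h1, h2, h3⟩
      refine ⟨(x, ⟨N, ?_⟩), ⟨h2, h3⟩, rfl⟩
      simp [S, h1]
    · rintro ⟨⟨y, N⟩, ⟨h2, h3⟩, rfl⟩
      refine ⟨N.1, ?_, h2, h3⟩
      have := N.2
      simpa [S] using this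
  rw [himg]
  exact isClosedMap_fst_of_compactSpace C hC

theorem Proj.isOpen_V0 [FiniteDimensional ℝ E] (h : Proj M P) : IsOpen (V0 M P) := by
  have e : V0 M P = (M ∪ {x | ∃ N : E →L[ℝ] ℝ, Sep M P x N})ᶜ := by
    ext x
    simp [V0]
  rw [e]
  exact (h.isClosed.union h.isClosed_sep).isOpen_compl

theorem Proj.convex_of_V0_empty (h : Proj M P) (h0 : V0 M P = ∅) : Convex ℝ M := by
  intro a ha b hb s t hs ht hst
  by_contra hc
  have hx : s • a + t • b ∉ V0 M P := by rw [h0]; exact notMem_empty _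
  have : ∃ N : E →L[ℝ] ℝ, Sep M P (s • a + t • b) N := by
    by_contra hcon
    exact hx ⟨hc, fun N hN => hcon ⟨N, hN⟩⟩
  obtain ⟨N, hN1, hN2, hN3⟩ := this
  have hr := h.rr_pos hc
  have h1 := hN3 a ha
  have h2 := hN3 b hb
  rw [map_sub] at hN2
  have h3 : N (s • a + t • b) = s * N a + t * N b := by simp
  have h4 : s * N (P (s • a + t • b)) ≤ s * N a := mul_le_mul_of_nonneg_left h1 hs
  have h5 : t * N (P (s • a + t • b)) ≤ t * N b := mul_le_mul_of_nonneg_left h2 ht
  have h6 : s * N (P (s • a + t • b)) + t * N (P (s • a + t • b)) = N (P (s • a + t • b)) := by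
    rw [← add_mul, hst, one_mul]
  linarith

/-- If `‖s + t v‖ ≥ 1` for small positive `t`, some norming functional of `s` is nonnegative
at `v`. -/
theorem exists_norming_of_ray [FiniteDimensional ℝ E] {s v : E} (hs : ‖s‖ = 1)
    (h : ∀ R : ℝ, 0 < R → ∃ t : ℝ, 0 < t ∧ t < R ∧ 1 ≤ ‖s + t • v‖) :
    ∃ N : E →L[ℝ] ℝ, ‖N‖ = 1 ∧ N s = 1 ∧ 0 ≤ N v := by
  have hex : ∀ n : ℕ, ∃ N : E →L[ℝ] ℝ, N ∈ sphere (0 : E →L[ℝ] ℝ) 1 ∧
      0 ≤ N v ∧ 1 - ((n : ℝ) + 1)⁻¹ * ‖v‖ ≤ N s := by
    intro n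
    obtain ⟨t, ht0, htR, ht1⟩ := h ((n : ℝ) + 1)⁻¹ (by positivity)
    have hne : ‖s + t • v‖ ≠ 0 := by
      intro h0; rw [h0] at ht1; linarith
    obtain ⟨N, hN1, hN2⟩ := exists_dual_vector ℝ (s + t • v) hne
    have hN2' : N (s + t • v) = ‖s + t • v‖ := by simpa using hN2
    have hNs : N s ≤ 1 := by
      have := apply_le_norm hN1.le s
      linarith
    have e : N (s + t • v) = N s + t * N v := by simp
    have hNv : N v ≤ ‖v‖ := apply_le_norm hN1.le v
    refine ⟨N, by simp [hN1], ?_, ?_⟩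
    · by_contra hcon
      have : t * N v < 0 := mul_neg_of_pos_of_neg ht0 (not_le.1 hcon)
      linarith
    · have h1 : t * N v ≤ t * ‖v‖ := mul_le_mul_of_nonneg_left hNv ht0.le
      have h2 : t * ‖v‖ ≤ ((n : ℝ) + 1)⁻¹ * ‖v‖ := mul_le_mul_of_nonneg_right htR.le (norm_nonneg _)
      linarith
  choose N hN1 hN2 hN3 using hex
  obtain ⟨N0, hN0, φ, hφ, hlim⟩ := (isCompact_sphere (0 : E →L[ℝ] ℝ) 1).tendsto_subseq hN1
  have hev : ∀ w : E, Tendsto (fun n => N (φ n) w) atTop (𝓝 (N0 w)) := by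
    intro w
    have c : Continuous fun L : E →L[ℝ] ℝ => L w := by fun_prop
    exact (c.tendsto N0).comp hlim
  have hN0n : ‖N0‖ = 1 := by simpa using hN0
  refine ⟨N0, hN0n, ?_, ?_⟩
  · apply le_antisymm
    · have := apply_le_norm hN0n.le s
      linarith
    · have hl : Tendsto (fun n => 1 - ((φ n : ℝ) + 1)⁻¹ * ‖v‖) atTop (𝓝 (1 - 0 * ‖v‖)) := by
        apply Tendsto.sub tendsto_const_nhds
        apply Tendsto.mul_const
        have h1 : Tendsto (fun n : ℕ => ((n : ℝ) + 1)⁻¹) atTop (𝓝 0) := by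
          have := tendsto_one_div_add_atTop_nhds_zero_nat (𝕜 := ℝ)
          simpa [one_div] using this
        exact h1.comp hφ.tendsto_atTop
      have := le_of_tendsto_of_tendsto' hl (hev s) (fun n => hN3 (φ n))
      simpa using this
  · exact ge_of_tendsto' (hev v) (fun n => hN2 (φ n))

/-- If all norming functionals of the direction `sd P x` coincide, `x` is not bad. -/
theorem Proj.notMem_V0_of_smooth [FiniteDimensional ℝ E] (h : Proj M P) {x : E}
    {N : E →L[ℝ] ℝ} (hN : ‖N‖ = 1) (hNs : N (sd P x) = 1)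
    (hu : ∀ N' : E →L[ℝ] ℝ, ‖N'‖ = 1 → N' (sd P x) = 1 → N' = N) : x ∉ V0 M P := by
  rintro ⟨hx, hV⟩
  have hr := h.rr_pos hx
  apply hV N
  refine ⟨hN, ?_, ?_⟩
  · rw [← h.smul_sd hx, map_smul, hNs]; simp
  · intro g hg
    obtain ⟨N', h1, h2, h3⟩ := exists_norming_of_ray (s := sd P x) (v := g - P x) (h.norm_sd hx) (by
      intro R hR
      set T := max (rr P x) (2 * R⁻¹) with hT
      have hT1 : rr P x ≤ T := le_max_left _ _
      have hT2 : 2 * R⁻¹ ≤ T := le_max_right _ _
      have hT0 : 0 < T := hr.trans_le hT1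
      refine ⟨T⁻¹, inv_pos.2 hT0, ?_, ?_⟩
      · have : R⁻¹ < T := by
          have := inv_pos.2 hR
          linarith
        exact (inv_lt_comm₀ hT0 hR).2 this
      · obtain ⟨hP, hR2⟩ := h.sun' hx hT1
        have h3 := h.rr_le (P x - T • sd P x) hg
        rw [hR2] at h3
        have e : P x - T • sd P x - g = -(T • (sd P x + T⁻¹ • (g - P x))) := by
          rw [smul_add, smul_smul, mul_inv_cancel₀ hT0.ne', one_smul]
          abel
        rw [e, norm_neg, norm_smul, Real.norm_of_nonneg hT0.le] at h3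
        by_contra hcon
        have : T * ‖sd P x + T⁻¹ • (g - P x)‖ < T * 1 :=
          mul_lt_mul_of_pos_left (not_le.1 hcon) hT0
        linarith)
    rw [hu N' h1 h2, map_sub] at h3
    linarith

end

end Run7.h516
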