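import Pool.Agent.Run7.h516.Face

/-! If all exposed points of the unit ball are smooth, there are no bad points. -/

namespace Run7.h516

open Metric Set Filter Topology

set_option linter.unusedSectionVars false

variable {E : Type*} [NormedAddCommGroup E] [NormedSpace ℝ E] [FiniteDimensional ℝ E]

/-- one-sided difference quotient bound -/
theorem deriv_le_of {f : E → ℝ} {D : E →L[ℝ] ℝ} {x w : E} {k τ₀ : ℝ} (hf : HasFDerivAt f D x)
    (hτ₀ : 0 < τ₀) (h : ∀ τ : ℝ, 0 < τ → τ < τ₀ → f (x + τ • w) ≤ f x + τ * k) : D w ≤ k := by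
  have h1 : HasDerivAt (fun t : ℝ => f (x + t • w)) (D w) 0 := by
    have h2 : HasDerivAt (fun t : ℝ => x + t • w) w 0 := by
      have := ((hasDerivAt_id (0 : ℝ)).smul_const w).const_add x
      simpa using this
    have h3 : HasFDerivAt f D (x + (0 : ℝ) • w) := by simpa using hf
    exact h3.comp_hasDerivAt (0 : ℝ) h2
  have h4 := h1.tendsto_slope_zero_right
  refine le_of_tendsto h4 ?_
  have h5 : Ioo (0 : ℝ) τ₀ ∈ 𝓝[>] (0 : ℝ) := Ioo_mem_nhdsGT hτ₀
  filter_upwards [h5] with t ht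
  have h6 := h t ht.1 ht.2
  simp only [zero_add, zero_smul, add_zero, smul_eq_mul]
  rw [inv_mul_le_iff₀ ht.1]
  linarith

theorem le_deriv_of {f : E → ℝ} {D : E →L[ℝ] ℝ} {x w : E} {k τ₀ : ℝ} (hf : HasFDerivAt f D x)
    (hτ₀ : 0 < τ₀) (h : ∀ τ : ℝ, 0 < τ → τ < τ₀ → f x + τ * k ≤ f (x + τ • w)) : k ≤ D w := by
  have h1 : HasFDerivAt (fun y => - f y) (-D) x := hf.neg
  have h2 := deriv_le_of (w := w) (k := -k) h1 hτ₀ (fun τ h0 h1 => by
    have := h τ h0 h1
    linarith)
  have h3 : (-D) w = - D w := rfl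
  rw [h3] at h2
  linarith

/-- A `1`-Lipschitz function has a differentiability point in every ball. -/
theorem exists_diff {f : E → ℝ} (hf : LipschitzWith 1 f) (x : E) {δ : ℝ} (hδ : 0 < δ) :
    ∃ y ∈ ball x δ, DifferentiableAt ℝ f y := by
  let _ : MeasurableSpace E := borel E
  have _ : BorelSpace E := ⟨rfl⟩
  have h1 : ∀ᵐ y ∂(MeasureTheory.Measure.addHaar : MeasureTheory.Measure E),
      DifferentiableAt ℝ f y := hf.ae_differentiableAt
  have h2 : Dense {y | DifferentiableAt ℝ f y} := MeasureTheory.Measure.dense_of_ae h1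
  obtain ⟨y, hy1, hy2⟩ := h2.exists_mem_open isOpen_ball ⟨x, mem_ball_self hδ⟩
  exact ⟨y, hy2, hy1⟩

section
variable {M : Set E} {P : E → E}

/-- All the data of the local analysis at a differentiability point. -/
structure Loc (M : Set E) (P : E → E) (L : Submodule ℝ E) (x : E) (N : E →L[ℝ] ℝ) (c : ℝ) :
    Prop where
  hc : 0 < c
  hx : x ∈ V0 M P
  hN : ‖N‖ = 1
  core : sd P x ∈ Core N
  disj : ∀ b ∈ Face N, b ∉ L
  contact : ∀ᶠ z in 𝓝 (0 : E), z ∈ L → rr P x - N z + c * Q z ≤ rr P (x + z)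

theorem Proj.exists_loc (h : Proj M P) {L : Submodule ℝ E}
    (hmax : ∀ L' : Submodule ℝ E, L < L' → ∀ x p c, ¬ Contact M P L' x p c)
    {x₀ : E} {p : E →L[ℝ] ℝ} {c : ℝ} (hC : Contact M P L x₀ p c) :
    ∃ x N c', Loc M P L x N c' := by
  have hc := hC.1
  obtain ⟨ρ, hρ, δ, hδ, rh, hR, -, -, hV, hint, hconc⟩ :=
    h.conc hmax hC (c' := c / 2) (by linarith) (by linarith) (univ_mem : univ ∈ 𝓝 (0 : E))
  set c' := c / 2 with hc'
  have hc'0 : 0 < c' := by linarith
  have hlip := hR.lipschitz h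
  obtain ⟨x, hxb, hdiff⟩ := exists_diff hlip x₀ hδ
  set D := fderiv ℝ rh x with hD
  have hfd : HasFDerivAt rh D x := hdiff.hasFDerivAt
  obtain ⟨v, ⟨hvL, hvQ⟩, hve⟩ := hR.att x
  have hvlt := hint x hxb v hvL hvQ hve
  have hxs := hV x hxb v hvL hvQ
  set xs := x + v with hxsdef
  have hxsM : xs ∉ M := hxs.1
  have hr := h.rr_pos hxsM
  set s := sd P xs with hs
  have hsn : ‖s‖ = 1 := h.norm_sd hxsM
  have hsmul : rr P xs • s = P xs - xs := h.smul_sd hxsM
  have hDn : ‖-D‖ ≤ 1 := by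
    rw [norm_neg]
    have := norm_fderiv_le_of_lipschitz ℝ hlip (x₀ := x)
    simpa using this
  set N := -D with hNdef
  have hND : ∀ w, D w = - N w := fun w => by
    rw [hNdef]; simp
  -- (a)
  have hDs : D s ≤ -1 := by
    apply deriv_le_of hfd hr
    intro τ h0 h1
    have h2 := hR.le (x + τ • s) v ⟨hvL, hvQ⟩
    have h3 : rr P (x + τ • s + v) ≤ rr P xs - τ := by
      have h4 := h.rr_le (x + τ • s + v) (h.mem xs)
      have e : x + τ • s + v - P xs = -((rr P xs - τ) • s) := by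
        rw [sub_smul, hsmul, hxsdef]; abel
      rw [e, norm_neg, norm_smul, hsn, Real.norm_of_nonneg (by linarith)] at h4
      linarith
    rw [hve]
    unfold FF at *
    linarith
  have hNs : N s = 1 := by
    apply le_antisymm
    · have := apply_le_norm hDn s
      linarith
    · have := hND s
      linarith
  have hNn : ‖N‖ = 1 := by
    apply le_antisymm hDn
    have := N.le_opNorm s
    rw [hNs, hsn] at this
    simpa using this
  -- (b) upper bound along L for arbitrary minimizers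
  have hupper : ∀ v' ∈ L, Q v' ≤ ρ → rh x = FF P p c' x v' → ∀ z ∈ L, ∃ τ₀ > 0,
      ∀ τ : ℝ, 0 < τ → τ < τ₀ →
      rh (x + τ • z) ≤ rh x + τ * (p z + 2 * c' * Bl v' z) - c' * τ ^ 2 * Q z := by
    intro v' hv'L hv'Q hv'e z hz
    have hv'lt := hint x hxb v' hv'L hv'Q hv'e
    have hQc : Continuous (Q : E → ℝ) := continuous_Q
    have hcont : Continuous fun τ : ℝ => Q (v' - τ • z) := by fun_prop
    have hev : ∀ᶠ τ in 𝓝 (0 : ℝ), Q (v' - τ • z) < ρ := by
      have : Tendsto (fun τ : ℝ => Q (v' - τ • z)) (𝓝 0) (𝓝 (Q v')) := by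
        have := hcont.tendsto 0
        simpa using this
      exact this (isOpen_Iio.mem_nhds hv'lt)
    obtain ⟨τ₀, hτ₀, hb⟩ := Metric.eventually_nhds_iff.1 hev
    refine ⟨τ₀, hτ₀, fun τ h0 h1 => ?_⟩
    have h2 : Q (v' - τ • z) < ρ := hb (by rw [dist_eq_norm, sub_zero, Real.norm_of_nonneg h0.le]; exact h1)
    have h3 := hR.le (x + τ • z) (v' - τ • z) ⟨L.sub_mem hv'L (L.smul_mem _ hz), h2.le⟩
    have e1 : x + τ • z + (v' - τ • z) = x + v' := by abel
    have e2 : Q (v' - τ • z) = Q v' - 2 * τ * Bl v' z + τ ^ 2 * Q z := by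
      have : v' - τ • z = v' + (-τ) • z := by rw [neg_smul, sub_eq_add_neg]
      rw [this, Q_add, Q_smul, map_smul]
      simp only [smul_eq_mul]
      ring
    have e3 : p (v' - τ • z) = p v' - τ * p z := by rw [map_sub, map_smul]; rfl
    unfold FF at h3 hv'e
    rw [e1, e2, e3] at h3
    linarith
  have hDL : ∀ v' ∈ L, Q v' ≤ ρ → rh x = FF P p c' x v' → ∀ z ∈ L,
      D z = p z + 2 * c' * Bl v' z := by
    intro v' hv'L hv'Q hv'e
    have key : ∀ z ∈ L, D z ≤ p z + 2 * c' * Bl v' z := by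
      intro z hz
      obtain ⟨τ₀, hτ₀, hb⟩ := hupper v' hv'L hv'Q hv'e z hz
      apply deriv_le_of hfd hτ₀
      intro τ h0 h1
      have := hb τ h0 h1
      have h2 : 0 ≤ c' * τ ^ 2 * Q z := by
        have := Q_nonneg z
        positivity
      linarith
    intro z hz
    apply le_antisymm (key z hz)
    have := key (-z) (L.neg_mem hz)
    rw [map_neg, map_neg, map_neg] at this
    linarith
  have huniq : ∀ v' ∈ L, Q v' ≤ ρ → rh x = FF P p c' x v' → v' = v := by
    intro v' hv'L hv'Q hv'e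
    have h1 := hDL v' hv'L hv'Q hv'e (v' - v) (L.sub_mem hv'L hvL)
    have h2 := hDL v hvL hvQ hve (v' - v) (L.sub_mem hv'L hvL)
    have h3 : 2 * c' * (Bl v' (v' - v) - Bl v (v' - v)) = 0 := by linarith
    have h4 : Q (v' - v) = Bl v' (v' - v) - Bl v (v' - v) := by
      have e : v' = v + (v' - v) := by abel
      have : Bl v' (v' - v) = Bl v (v' - v) + Bl (v' - v) (v' - v) := by
        conv_lhs => rw [show Bl v' = Bl (v + (v' - v)) by rw [← e]]
        rw [Bl_add_left]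
      rw [this, Q]; ring
    rw [← h4] at h3
    have h5 : Q (v' - v) = 0 := by
      rcases mul_eq_zero.1 h3 with h6 | h6
      · exfalso; linarith
      · exact h6
    exact sub_eq_zero.1 (eq_zero_of_Q h5.le)
  -- (c)
  have hdisj : ∀ b ∈ Face N, b ∉ L := by
    intro b hb hbL
    obtain ⟨τ₀, hτ₀, hbd⟩ := hupper v hvL hvQ hve b hbL
    have h1 := hDL v hvL hvQ hve b hbL
    have h2 : D b = -1 := by rw [hND, hb.2]
    have h3 := hbd (τ₀ / 2) (by linarith) (by linarith)
    rw [← h1, h2] at h3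
    have h4 := hR.le_add h x (x + (τ₀ / 2) • b)
    have e : x - (x + (τ₀ / 2) • b) = -((τ₀ / 2) • b) := by abel
    rw [e, norm_neg, norm_smul, Real.norm_of_nonneg (by linarith)] at h4
    have h5 : τ₀ / 2 * ‖b‖ ≤ τ₀ / 2 * 1 := mul_le_mul_of_nonneg_left hb.1 (by linarith)
    have h6 : c' * (τ₀ / 2) ^ 2 * Q b ≤ 0 := by linarith
    have h7 : Q b ≤ 0 := by
      have : 0 < c' * (τ₀ / 2) ^ 2 := by positivity
      by_contra hcon
      have := mul_pos this (not_le.1 hcon)
      linarith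
    have h8 := eq_zero_of_Q h7
    have h9 := hb.2
    rw [h8, map_zero] at h9
    exact zero_ne_one h9
  have hsF : s ∈ Face N := ⟨hsn.le, hNs⟩
  have hcore : s ∈ Core N := by
    refine ⟨hsF, fun s' hs' => ?_⟩
    -- choose τ
    obtain ⟨τ, hτ0, hτr, hτb⟩ : ∃ τ : ℝ, 0 < τ ∧ τ < rr P xs ∧ x + τ • s' ∈ ball x₀ δ := by
      have hcont : Continuous fun τ : ℝ => x + τ • s' := by fun_prop
      have hev : ∀ᶠ τ in 𝓝 (0 : ℝ), x + τ • s' ∈ ball x₀ δ := by
        have : Tendsto (fun τ : ℝ => x + τ • s') (𝓝 0) (𝓝 x) := by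
          have := hcont.tendsto 0
          simpa using this
        exact this (isOpen_ball.mem_nhds hxb)
      obtain ⟨τ₀, hτ₀, hb⟩ := Metric.eventually_nhds_iff.1 hev
      refine ⟨min (τ₀ / 2) (rr P xs / 2), lt_min (by linarith) (by linarith), ?_, ?_⟩
      · exact lt_of_le_of_lt (min_le_right _ _) (by linarith)
      · apply hb
        rw [dist_eq_norm, sub_zero, Real.norm_of_nonneg (le_min (by linarith) (by linarith))]
        exact lt_of_le_of_lt (min_le_left _ _) (by linarith)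
    have hnL : x + τ • s' - x ∉ L := by
      have e : x + τ • s' - x = τ • s' := by abel
      rw [e]
      intro hm
      apply hdisj s' hs'
      exact (L.smul_mem_iff hτ0.ne').1 hm
    have hD2 : rh (x + τ • s') - rh x ≤ D (τ • s') := by
      apply le_deriv_of hfd one_pos
      intro t h0 h1
      have h2 := hconc x hxb _ hτb hnL t ⟨h0.le, h1.le⟩
      have e : x + t • (x + τ • s' - x) = x + t • τ • s' := by
        congr 2; abel
      rw [e] at h2
      linarith
    have hD3 : D (τ • s') = -τ := by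
      rw [map_smul, hND, hs'.2]; simp
    obtain ⟨v', ⟨hv'L, hv'Q⟩, hv'e⟩ := hR.att (x + τ • s')
    have h5 : rr P (x + v') ≤ rr P (x + τ • s' + v') + τ := by
      have h6 := h.rr_le_add (x + v') (x + τ • s' + v')
      have e : x + v' - (x + τ • s' + v') = -(τ • s') := by abel
      rw [e, norm_neg, norm_smul, Real.norm_of_nonneg hτ0.le] at h6
      have h7 : τ * ‖s'‖ ≤ τ * 1 := mul_le_mul_of_nonneg_left hs'.1 hτ0.le
      linarith
    have h8 := hR.le x v' ⟨hv'L, hv'Q⟩
    have h9 : rh x = FF P p c' x v' := by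
      unfold FF at *
      linarith
    have hv'v := huniq v' hv'L hv'Q h9
    have h10 : rr P (x + τ • s' + v') ≤ rr P (x + v') - τ := by
      unfold FF at *
      linarith
    rw [hv'v] at h10
    have e1 : x + τ • s' + v = xs + τ • s' := by rw [hxsdef]; abel
    rw [e1] at h10
    have h11 : P (xs + τ • s') = P xs := by
      apply h.fwd_lemma (t := τ) _ h10
      have e : xs + τ • s' - xs = τ • s' := by abel
      rw [e, norm_smul, Real.norm_of_nonneg hτ0.le]
      nlinarith [mul_le_mul_of_nonneg_left hs'.1 hτ0.le]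
    have h12 : ‖rr P xs • s - τ • s'‖ ≤ rr P xs - τ := by
      have e : rr P xs • s - τ • s' = -(xs + τ • s' - P xs) := by
        rw [hsmul]; abel
      rw [e, norm_neg]
      have : ‖xs + τ • s' - P xs‖ = rr P (xs + τ • s') := by
        unfold rr; rw [h11]
      rw [this]
      exact h10
    have hpos : 0 < rr P xs - τ := by linarith
    refine ⟨τ / rr P xs, by positivity, by rw [div_lt_one hr]; exact hτr,
      (rr P xs - τ)⁻¹ • (rr P xs • s - τ • s'), ⟨?_, ?_⟩, ?_⟩
    · rw [norm_smul, norm_inv, Real.norm_of_nonneg hpos.le, inv_mul_le_iff₀ hpos]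
      linarith
    · rw [map_smul, map_sub, map_smul, map_smul, hNs, hs'.2]
      simp only [smul_eq_mul, mul_one]
      exact inv_mul_cancel₀ hpos.ne'
    · have e2 : (1 - τ / rr P xs) * (rr P xs - τ)⁻¹ = (rr P xs)⁻¹ := by
        field_simp
      rw [smul_smul, e2, smul_sub, smul_smul, smul_smul, inv_mul_cancel₀ hr.ne', one_smul,
        div_eq_inv_mul]
      abel
  refine ⟨xs, N, c', hc'0, hxs, hNn, hcore, hdisj, ?_⟩
  have hQc : Continuous (Q : E → ℝ) := continuous_Q
  have hcont : Continuous fun z : E => Q (v + z) := by fun_prop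
  have hev : ∀ᶠ z in 𝓝 (0 : E), Q (v + z) < ρ := by
    have : Tendsto (fun z : E => Q (v + z)) (𝓝 0) (𝓝 (Q v)) := by
      have := hcont.tendsto 0
      simpa using this
    exact this (isOpen_Iio.mem_nhds hvlt)
  filter_upwards [hev] with z hz hzL
  have h1 := hR.le x (v + z) ⟨L.add_mem hvL hzL, hz.le⟩
  have h2 := hDL v hvL hvQ hve z hzL
  rw [hND] at h2
  unfold FF at h1 hve
  rw [Q_add, map_add] at h1
  have e : x + (v + z) = xs + z := by rw [hxsdef]; abel
  rw [e] at h1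
  linarith

/-- At a point outside the core the slid point is not bad. -/
theorem Proj.slide_good (h : Proj M P) {L : Submodule ℝ E}
    (hmax : ∀ L' : Submodule ℝ E, L < L' → ∀ x p c, ¬ Contact M P L' x p c)
    {x : E} {N : E →L[ℝ] ℝ} {c : ℝ} (hL : Loc M P L x N c) {s₂ : E} (hs₂ : s₂ ∈ Face N)
    (hs₂c : s₂ ∉ Core N) :
    ∃ N₂ : E →L[ℝ] ℝ, ‖N₂‖ = 1 ∧ N₂ s₂ = 1 ∧ ∀ g ∈ M, N₂ (P x) ≤ N₂ g := by
  obtain ⟨hc, hx, hN, hcore, hdisj, hcontact⟩ := hL
  have hxM : x ∉ M := hx.1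
  have hr := h.rr_pos hxM
  set s := sd P x with hs
  have hsmul : rr P x • s = P x - x := h.smul_sd hxM
  obtain ⟨l, hl0, hl1, s₃, hs₃, hse⟩ := hcore.2 s₂ hs₂
  set θ := l / 2 with hθ
  have hθ0 : 0 < θ := by linarith
  have hθ1 : θ < 1 := by linarith
  have hθ1' : 0 < 1 - θ := by linarith
  -- s'' = α s + (1-α) s₃ with α = 1/(2-l)
  have h2l : 0 < 2 - l := by linarith
  set s' := (1 / (2 - l)) • s + (1 - 1 / (2 - l)) • s₃ with hs'
  have hs'c : s' ∈ Core N := by
    apply core_combo hcore hs₃ (by positivity)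
    rw [div_le_one h2l]; linarith
  have hss' : s = θ • s₂ + (1 - θ) • s' := by
    have h1 : (1 - θ) • s' = (1 / 2 : ℝ) • s + ((1 - l) / 2) • s₃ := by
      rw [hs', smul_add, smul_smul, smul_smul]
      congr 2
      · rw [hθ]; field_simp
      · rw [hθ]; field_simp; ring
    rw [h1]
    have h2 : l • s₂ = s - (1 - l) • s₃ := by
      rw [eq_sub_iff_add_eq]; exact hse.symm
    have h3 : θ • s₂ = (1 / 2 : ℝ) • (l • s₂) := by
      rw [smul_smul, hθ]; congr 1; ring
    rw [h3, h2]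
    module
  have hs'n : ‖s'‖ ≤ 1 := hs'c.1.1
  set ρ₂ := θ * rr P x with hρ₂
  have hρ₂0 : 0 < ρ₂ := by positivity
  obtain ⟨hPy, hry⟩ := h.slide hxM (a := s₂) (b := s') (l := 1 - θ) hs₂.1 hs'n hθ1'.le
    (by linarith) (by rw [← hs, sub_sub_cancel]; exact hss') hρ₂0
  set y := P x - ρ₂ • s₂ with hy
  have hyx : y = x + ((1 - θ) * rr P x) • s' := by
    have h1 : P x = x + rr P x • s := by rw [hsmul]; abel
    have h2 : rr P x • s = ρ₂ • s₂ + ((1 - θ) * rr P x) • s' := by
      conv_lhs => rw [hss']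
      rw [smul_add, smul_smul, smul_smul, hρ₂, mul_comm (rr P x) θ, mul_comm (rr P x) (1 - θ)]
    rw [hy, h1, h2]; abel
  have hyM : y ∉ M := h.notMem_of_pos (by rw [hry]; exact hρ₂0)
  have hyV : y ∉ V0 M P := by
    intro hyV
    have hneg : ∀ w, (-N) w = - N w := fun w => rfl
    have hCy : Contact M P L y (-N) c := by
      refine ⟨hc, hyV, ?_⟩
      filter_upwards [hcontact] with z hz hzL
      have h1 := hz hzL
      have h2 := h.rr_le_add (x + z) (y + z)
      have e : x + z - (y + z) = -(((1 - θ) * rr P x) • s') := by rw [hyx]; abel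
      have hnn : 0 ≤ (1 - θ) * rr P x := by positivity
      rw [e, norm_neg, norm_smul, Real.norm_of_nonneg hnn] at h2
      have h3 : (1 - θ) * rr P x * ‖s'‖ ≤ (1 - θ) * rr P x * 1 :=
        mul_le_mul_of_nonneg_left hs'n hnn
      rw [hry, hneg, hρ₂]
      linarith
    obtain ⟨ρ, hρ, δ, hδ, rh, hR, hU, hcy, hV, hint, hconc⟩ :=
      h.conc hmax hCy (c' := c / 2) (by linarith) (by linarith) hcontact
    -- choose τ
    obtain ⟨τ, hτ0, hτr, hτr2, hτb1, hτb2⟩ : ∃ τ : ℝ, 0 < τ ∧ τ < ρ₂ ∧ τ < (1 - θ) * rr P x ∧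
        y - τ • s' ∈ ball y δ ∧ y + τ • s' ∈ ball y δ := by
      have hpos : 0 < (1 - θ) * rr P x := by positivity
      have hm : 0 < min (δ / 2) (min (ρ₂ / 2) ((1 - θ) * rr P x / 2)) := by
        refine lt_min (by positivity) (lt_min (by positivity) (by positivity))
      have hm1 : min (δ / 2) (min (ρ₂ / 2) ((1 - θ) * rr P x / 2)) ≤ δ / 2 := min_le_left _ _
      refine ⟨min (δ / 2) (min (ρ₂ / 2) ((1 - θ) * rr P x / 2)), hm, ?_, ?_, ?_, ?_⟩
      · exact lt_of_le_of_lt ((min_le_right _ _).trans (min_le_left _ _)) (by linarith)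
      · exact lt_of_le_of_lt ((min_le_right _ _).trans (min_le_right _ _)) (by linarith)
      · rw [mem_ball, dist_eq_norm]
        set τ := min (δ / 2) (min (ρ₂ / 2) ((1 - θ) * rr P x / 2)) with hτ
        have e : y - τ • s' - y = -(τ • s') := by abel
        rw [e, norm_neg, norm_smul, Real.norm_of_nonneg hm.le]
        have : τ * ‖s'‖ ≤ τ * 1 := mul_le_mul_of_nonneg_left hs'n hm.le
        linarith
      · rw [mem_ball, dist_eq_norm]
        set τ := min (δ / 2) (min (ρ₂ / 2) ((1 - θ) * rr P x / 2)) with hτ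
        have e : y + τ • s' - y = τ • s' := by abel
        rw [e, norm_smul, Real.norm_of_nonneg hm.le]
        have : τ * ‖s'‖ ≤ τ * 1 := mul_le_mul_of_nonneg_left hs'n hm.le
        linarith
    have h0K : Q (0 : E) ≤ ρ := by rw [Q_zero]; exact hρ.le
    have hrhy : ρ₂ ≤ rh y := by
      obtain ⟨w, ⟨hwL, hwQ⟩, hwe⟩ := hR.att y
      have h1 := hcy w hwL hwQ
      rw [hwe]
      unfold FF
      rw [hry] at h1
      have := Q_nonneg w
      nlinarith
    have hrhy' : rh y ≤ ρ₂ := by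
      have := hR.le y 0 ⟨L.zero_mem, h0K⟩
      unfold FF at this
      rw [Q_zero, add_zero, hry, map_zero] at this
      linarith
    have hback : ρ₂ + τ ≤ rh (y - τ • s') := by
      obtain ⟨w, ⟨hwL, hwQ⟩, hwe⟩ := hR.att (y - τ • s')
      have h1 := hU w hwL hwQ hwL
      have h2 := h.rr_le_add (x + w) (y - τ • s' + w)
      have e : x + w - (y - τ • s' + w) = -(((1 - θ) * rr P x - τ) • s') := by
        rw [hyx, sub_smul]; abel
      have hnn : 0 ≤ (1 - θ) * rr P x - τ := by linarith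
      rw [e, norm_neg, norm_smul, Real.norm_of_nonneg hnn] at h2
      have h3 : ((1 - θ) * rr P x - τ) * ‖s'‖ ≤ ((1 - θ) * rr P x - τ) * 1 :=
        mul_le_mul_of_nonneg_left hs'n hnn
      rw [hwe]
      unfold FF
      rw [hneg]
      have := Q_nonneg w
      have h4 : 0 ≤ c / 2 * Q w := by positivity
      linarith
    have hnL : (y + τ • s') - (y - τ • s') ∉ L := by
      have e : (y + τ • s') - (y - τ • s') = (2 * τ) • s' := by rw [two_mul, add_smul]; abel
      rw [e]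
      intro hm
      apply hdisj s' hs'c.1
      exact (L.smul_mem_iff (by positivity : (2 * τ) ≠ 0)).1 hm
    have hmid := hconc _ hτb1 _ hτb2 hnL (1 / 2) ⟨by norm_num, by norm_num⟩
    have e0 : y - τ • s' + (1 / 2 : ℝ) • (y + τ • s' - (y - τ • s')) = y := by module
    rw [e0] at hmid
    have hfwd : rh (y + τ • s') ≤ ρ₂ - τ := by linarith
    obtain ⟨w, ⟨hwL, hwQ⟩, hwe⟩ := hR.att (y + τ • s')
    have h1 := hcy w hwL hwQ
    have h2 := h.rr_le_add (y + w) (y + τ • s' + w)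
    have e : y + w - (y + τ • s' + w) = -(τ • s') := by abel
    rw [e, norm_neg, norm_smul, Real.norm_of_nonneg hτ0.le] at h2
    have h3 : τ * ‖s'‖ ≤ τ * 1 := mul_le_mul_of_nonneg_left hs'n hτ0.le
    rw [hry] at h1
    unfold FF at hwe
    have hQw : Q w ≤ 0 := by
      have h4 : c / 2 * Q w ≤ 0 := by linarith
      by_contra hcon
      have := mul_pos (half_pos hc) (not_le.1 hcon)
      linarith
    have hw0 := eq_zero_of_Q hQw
    rw [hw0, Q_zero, map_zero, add_zero] at hwe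
    have h5 : rr P (y + τ • s') ≤ ρ₂ - τ := by linarith
    have h6 : P (y + τ • s') = P y := by
      apply h.fwd_lemma (t := τ)
      · have e : y + τ • s' - y = τ • s' := by abel
        rw [e, norm_smul, Real.norm_of_nonneg hτ0.le]
        linarith
      · rw [hry]; exact h5
    apply hs₂c
    -- s₂ = (τ/ρ₂) s' + (1 - τ/ρ₂) g₂
    have hpos : 0 < ρ₂ - τ := by linarith
    have h7 : ‖ρ₂ • s₂ - τ • s'‖ ≤ ρ₂ - τ := by
      have e : ρ₂ • s₂ - τ • s' = -(y + τ • s' - P y) := by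
        rw [hPy, hy]; abel
      rw [e, norm_neg]
      have : ‖y + τ • s' - P y‖ = rr P (y + τ • s') := by
        unfold rr; rw [h6]
      rw [this]; exact h5
    have hg₂ : (ρ₂ - τ)⁻¹ • (ρ₂ • s₂ - τ • s') ∈ Face N := by
      refine ⟨?_, ?_⟩
      · rw [norm_smul, norm_inv, Real.norm_of_nonneg hpos.le, inv_mul_le_iff₀ hpos]
        linarith
      · rw [map_smul, map_sub, map_smul, map_smul, hs₂.2, hs'c.1.2]
        simp only [smul_eq_mul, mul_one]
        exact inv_mul_cancel₀ hpos.ne'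
    have h8 := core_combo hs'c hg₂ (α := τ / ρ₂) (by positivity) (by rw [div_le_one hρ₂0]; exact hτr.le)
    have e2 : (τ / ρ₂) • s' + (1 - τ / ρ₂) • (ρ₂ - τ)⁻¹ • (ρ₂ • s₂ - τ • s') = s₂ := by
      have e3 : (1 - τ / ρ₂) * (ρ₂ - τ)⁻¹ = ρ₂⁻¹ := by
        field_simp
      rw [smul_smul, e3, smul_sub, smul_smul, smul_smul, inv_mul_cancel₀ hρ₂0.ne', one_smul,
        div_eq_inv_mul]
      abel
    rw [e2] at h8
    exact h8
  have hex : ∃ N₂ : E →L[ℝ] ℝ, Sep M P y N₂ := by
    by_contra hcon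
    exact hyV ⟨hyM, fun N₂ hN₂ => hcon ⟨N₂, hN₂⟩⟩
  obtain ⟨N₂, h1, h2, h3⟩ := hex
  refine ⟨N₂, h1, ?_, fun g hg => ?_⟩
  · have e : P y - y = ρ₂ • s₂ := by rw [hPy, hy]; abel
    rw [e, hry, map_smul, smul_eq_mul] at h2
    have : ρ₂ * N₂ s₂ = ρ₂ * 1 := by linarith
    exact mul_left_cancel₀ hρ₂0.ne' this
  · have := h3 g hg
    rwa [hPy] at this

/-- The main theorem: no bad points. -/
theorem Proj.V0_empty (h : Proj M P)
    (hsm : ∀ x ∈ (closedBall (0 : E) 1).exposedPoints ℝ, ∀ f g : E →L[ℝ] ℝ, ‖f‖ = 1 → f x = 1 →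
      ‖g‖ = 1 → g x = 1 → f = g) : V0 M P = ∅ := by
  by_contra hne
  obtain ⟨x₀, hx₀⟩ := nonempty_iff_ne_empty.2 hne
  -- a maximal contact subspace
  have hbot : Contact M P (⊥ : Submodule ℝ E) x₀ 0 1 := by
    refine ⟨one_pos, hx₀, Eventually.of_forall fun v hv => ?_⟩
    rw [(Submodule.mem_bot ℝ).1 hv]
    simp [Q_zero]
  obtain ⟨L, ⟨x₁, p₁, c₁, hC⟩, hLmax⟩ := (wellFounded_gt (α := Submodule ℝ E)).has_min
    {L | ∃ x p c, Contact M P L x p c} ⟨⊥, x₀, 0, 1, hbot⟩
  have hmax : ∀ L' : Submodule ℝ E, L < L' → ∀ x p c, ¬ Contact M P L' x p c := by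
    intro L' hlt x p c hCC
    exact hLmax L' ⟨x, p, c, hCC⟩ hlt
  obtain ⟨x, N, c, hL⟩ := h.exists_loc hmax hC
  have hxV := hL.hx
  have hr := h.rr_pos hxV.1
  have hsn := h.norm_sd hxV.1
  -- compactness
  obtain ⟨η, hη, hηb⟩ : ∃ η > 0, ∀ N' : E →L[ℝ] ℝ, ‖N'‖ = 1 → (∀ g ∈ M, N' (P x) ≤ N' g) →
      N' (sd P x) ≤ 1 - η := by
    let C : Set (E →L[ℝ] ℝ) := sphere 0 1 ∩ {N' | ∀ g ∈ M, N' (P x) ≤ N' g}
    have hCc : IsCompact C := by
      apply (isCompact_sphere _ _).inter_right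
      have e : {N' : E →L[ℝ] ℝ | ∀ g ∈ M, N' (P x) ≤ N' g} =
          ⋂ g ∈ M, {N' : E →L[ℝ] ℝ | N' (P x) ≤ N' g} := by ext; simp
      rw [e]
      exact isClosed_biInter fun g _ => isClosed_le (by fun_prop) (by fun_prop)
    rcases C.eq_empty_or_nonempty with hCe | hCne
    · refine ⟨1, one_pos, fun N' h1 h2 => ?_⟩
      exfalso
      have : N' ∈ C := ⟨by simp [h1], h2⟩
      rw [hCe] at this
      exact this
    · obtain ⟨N', hN', hmaxN⟩ := hCc.exists_isMaxOn hCne
        (f := fun N' : E →L[ℝ] ℝ => N' (sd P x)) (by fun_prop)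
      have hN'n : ‖N'‖ = 1 := by
        have := hN'.1
        simpa using this
      have hlt : N' (sd P x) < 1 := by
        apply lt_of_le_of_ne
        · have := apply_le_norm hN'n.le (sd P x)
          linarith
        · intro he
          apply hxV.2 N'
          refine ⟨hN'n, ?_, hN'.2⟩
          rw [← h.smul_sd hxV.1, map_smul, he]; simp
      refine ⟨1 - N' (sd P x), by linarith, fun N'' h1 h2 => ?_⟩
      have : N'' (sd P x) ≤ N' (sd P x) := hmaxN (show N'' ∈ C from ⟨by simp [h1], h2⟩)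
      linarith
  obtain ⟨e, heF, heE⟩ := exposed_of_core hL.hN.le hL.core hη (fun s₂ hs₂ hs₂c => by
    obtain ⟨N₂, h1, h2, h3⟩ := h.slide_good hmax hL hs₂ hs₂c
    exact ⟨N₂, h1.le, h2, hηb N₂ h1 h3⟩)
  -- norming functionals of `sd P x` norm `e`
  refine h.notMem_V0_of_smooth (x := x) hL.hN hL.core.1.2 (fun N' h1 h2 => ?_) hxV
  obtain ⟨l, hl0, hl1, g', hg', he⟩ := hL.core.2 e heF
  have h3 : N' e = 1 := by
    have h4 : N' e ≤ 1 := (apply_le_norm h1.le e).trans heF.1
    have h5 : N' g' ≤ 1 := (apply_le_norm h1.le g').trans hg'.1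
    rw [he, map_add, map_smul, map_smul] at h2
    simp only [smul_eq_mul] at h2
    have h6 : (1 - l) * N' g' ≤ (1 - l) * 1 := mul_le_mul_of_nonneg_left h5 (by linarith)
    have h7 : l * 1 ≤ l * N' e := by linarith
    exact le_antisymm h4 (le_of_mul_le_mul_left h7 hl0)
  exact hsm e heE N' N h1 h3 hL.hN heF.2

end

end Run7.h516
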