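import Mathlib

/-!
# Erdos' multiplication table theorem

The number of distinct products `a * b` with `1 ≤ a, b ≤ N` is `o (N ^ 2)`. Proof by Turan's
inequality for the number of prime factors in a fixed finite set of primes.
-/

set_option autoImplicit false

namespace Pool.Agent.Run7.h516.MT

open Finset Filter

/-- Number of primes in `P` dividing `n`. -/
def w (P : Finset ℕ) (n : ℕ) : ℕ := (P.filter (fun p => p ∣ n)).card

/-- Sum of the reciprocals. -/
noncomputable def S (P : Finset ℕ) : ℝ := ∑ p ∈ P, (1 : ℝ) / p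

lemma count_dvd (X d : ℕ) : (((Icc 1 X).filter (fun n => d ∣ n)).card) = X / d := by
  have h := Nat.Ioc_filter_dvd_card_eq_div X d
  rw [← h]
  congr 1

lemma exists_primes (T : ℝ) : ∃ P : Finset ℕ, (∀ p ∈ P, p.Prime) ∧ T ≤ S P := by
  by_contra hcon
  push Not at hcon
  apply Nat.Primes.not_summable_one_div
  refine summable_of_sum_le (c := T) (fun p => by positivity) ?_
  intro u
  have h := hcon (u.map ⟨fun p : Nat.Primes => (p : ℕ), Subtype.val_injective⟩) (by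
    intro p hp
    simp only [Finset.mem_map] at hp
    obtain ⟨q, -, rfl⟩ := hp
    exact q.2)
  unfold S at h
  rw [Finset.sum_map] at h
  exact h.le

variable {P : Finset ℕ}

lemma sum_w_real (X : ℕ) : ∑ n ∈ Icc 1 X, (w P n : ℝ) = ∑ p ∈ P, ((X / p : ℕ) : ℝ) := by
  have h1 : ∀ n ∈ Icc 1 X, (w P n : ℝ) = ∑ p ∈ P, if p ∣ n then (1 : ℝ) else 0 := by
    intro n _
    rw [w, Finset.card_filter]
    push_cast
    rfl
  rw [Finset.sum_congr rfl h1, Finset.sum_comm]
  refine Finset.sum_congr rfl fun p _ => ?_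
  rw [← count_dvd X p, Finset.card_filter]
  push_cast
  rfl

lemma sum_w_sq (hP : ∀ p ∈ P, p.Prime) (X : ℕ) :
    ∑ n ∈ Icc 1 X, (w P n : ℝ) ^ 2 ≤ X * (S P ^ 2 + S P) := by
  have h1 : ∀ n ∈ Icc 1 X, (w P n : ℝ) ^ 2 =
      ∑ p ∈ P, ∑ q ∈ P, if (p ∣ n ∧ q ∣ n) then (1 : ℝ) else 0 := by
    intro n _
    have : (w P n : ℝ) = ∑ p ∈ P, if p ∣ n then (1 : ℝ) else 0 := by
      rw [w, Finset.card_filter]
      push_cast
      rfl
    rw [this, sq, Finset.sum_mul_sum]
    refine Finset.sum_congr rfl fun p _ => Finset.sum_congr rfl fun q _ => ?_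
    by_cases hp : p ∣ n <;> by_cases hq : q ∣ n <;> simp [hp, hq]
  rw [Finset.sum_congr rfl h1, Finset.sum_comm]
  have h2 : ∀ p ∈ P, ∑ n ∈ Icc 1 X, ∑ q ∈ P, (if (p ∣ n ∧ q ∣ n) then (1 : ℝ) else 0) ≤
      ∑ q ∈ P, ((X : ℝ) * (1 / p * (1 / q)) + if p = q then (X : ℝ) * (1 / p) else 0) := by
    intro p hp
    rw [Finset.sum_comm]
    refine Finset.sum_le_sum fun q hq => ?_
    have hpp := hP p hp
    have hqp := hP q hq
    have hp0 : (0 : ℝ) < p := by exact_mod_cast hpp.pos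
    have hq0 : (0 : ℝ) < q := by exact_mod_cast hqp.pos
    by_cases hpq : p = q
    · subst hpq
      simp only [and_self, if_true]
      have h3 : (∑ n ∈ Icc 1 X, if p ∣ n then (1 : ℝ) else 0) = ((X / p : ℕ) : ℝ) := by
        rw [← count_dvd X p, Finset.card_filter]
        push_cast
        rfl
      rw [h3]
      have h4 : ((X / p : ℕ) : ℝ) ≤ X * (1 / p) := by
        rw [mul_one_div]
        exact Nat.cast_div_le
      have h5 : (0 : ℝ) ≤ X * (1 / p * (1 / p)) := by positivity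
      linarith
    · rw [if_neg hpq, add_zero]
      have hcop : Nat.Coprime p q := (Nat.coprime_primes hpp hqp).2 hpq
      have h3 : (∑ n ∈ Icc 1 X, if (p ∣ n ∧ q ∣ n) then (1 : ℝ) else 0) =
          ((X / (p * q) : ℕ) : ℝ) := by
        rw [← count_dvd X (p * q), Finset.card_filter]
        push_cast
        refine Finset.sum_congr rfl fun n _ => ?_
        have : (p ∣ n ∧ q ∣ n) ↔ p * q ∣ n :=
          ⟨fun h => hcop.mul_dvd_of_dvd_of_dvd h.1 h.2,
            fun h => ⟨(dvd_mul_right p q).trans h, (dvd_mul_left q p).trans h⟩⟩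
        simp only [this]
      rw [h3]
      calc ((X / (p * q) : ℕ) : ℝ) ≤ (X : ℝ) / ((p * q : ℕ) : ℝ) := Nat.cast_div_le
        _ = X * (1 / p * (1 / q)) := by
          push_cast
          field_simp
  refine (Finset.sum_le_sum h2).trans (le_of_eq ?_)
  have h6 : ∀ p ∈ P, ∑ q ∈ P, ((X : ℝ) * (1 / p * (1 / q)) + if p = q then (X : ℝ) * (1 / p) else 0) =
      (X : ℝ) * (1 / p) * S P + X * (1 / p) := by
    intro p hp
    rw [Finset.sum_add_distrib, Finset.sum_ite_eq, if_pos hp, S, Finset.mul_sum]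
    congr 1
    refine Finset.sum_congr rfl fun q _ => ?_
    ring
  rw [Finset.sum_congr rfl h6, Finset.sum_add_distrib, ← Finset.sum_mul, ← Finset.mul_sum]
  simp only [S]
  ring

lemma S_nonneg : 0 ≤ S P := Finset.sum_nonneg fun p _ => by positivity

/-- Turan's inequality. -/
lemma turan (hP : ∀ p ∈ P, p.Prime) (X : ℕ) :
    ∑ n ∈ Icc 1 X, ((w P n : ℝ) - S P) ^ 2 ≤ X * S P + 2 * S P * P.card := by
  have h1 : ∑ n ∈ Icc 1 X, ((w P n : ℝ) - S P) ^ 2 =
      ∑ n ∈ Icc 1 X, (w P n : ℝ) ^ 2 - 2 * S P * ∑ n ∈ Icc 1 X, (w P n : ℝ) + X * S P ^ 2 := by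
    have : ∀ n ∈ Icc 1 X, ((w P n : ℝ) - S P) ^ 2 =
        (w P n : ℝ) ^ 2 - 2 * S P * (w P n : ℝ) + S P ^ 2 := fun n _ => by ring
    rw [Finset.sum_congr rfl this, Finset.sum_add_distrib, Finset.sum_sub_distrib,
      ← Finset.mul_sum]
    simp
  rw [h1, sum_w_real]
  have h2 := sum_w_sq hP X
  have h3 : (X : ℝ) * S P - P.card ≤ ∑ p ∈ P, ((X / p : ℕ) : ℝ) := by
    have : ∀ p ∈ P, (X : ℝ) * (1 / p) - 1 ≤ ((X / p : ℕ) : ℝ) := by
      intro p hp
      have hp0 : 0 < p := (hP p hp).pos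
      have hpr : (0 : ℝ) < p := by exact_mod_cast hp0
      have h4 : X < p * (X / p + 1) := Nat.lt_mul_div_succ X hp0
      have h5 : (X : ℝ) < p * (((X / p : ℕ) : ℝ) + 1) := by exact_mod_cast h4
      have h6 : (X : ℝ) * (1 / p) < ((X / p : ℕ) : ℝ) + 1 := by
        rw [mul_one_div, div_lt_iff₀ hpr]
        linarith
      linarith
    calc (X : ℝ) * S P - P.card = ∑ p ∈ P, ((X : ℝ) * (1 / p) - 1) := by
          rw [Finset.sum_sub_distrib, ← Finset.mul_sum]
          simp [S]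
      _ ≤ _ := Finset.sum_le_sum this
  have hS : 0 ≤ S P := S_nonneg
  nlinarith [mul_le_mul_of_nonneg_left h3 hS]

/-- Few integers have `w` far from `S`. -/
lemma few (hP : ∀ p ∈ P, p.Prime) (hS : 0 < S P) (X : ℕ) :
    (((Icc 1 X).filter (fun n => S P / 4 ≤ |(w P n : ℝ) - S P|)).card : ℝ) ≤
      16 * (X + 2 * P.card) / S P := by
  have h1 := turan hP X
  have h2 : (((Icc 1 X).filter (fun n => S P / 4 ≤ |(w P n : ℝ) - S P|)).card : ℝ) *
      (S P / 4) ^ 2 ≤ ∑ n ∈ Icc 1 X, ((w P n : ℝ) - S P) ^ 2 := by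
    calc _ = ∑ n ∈ (Icc 1 X).filter (fun n => S P / 4 ≤ |(w P n : ℝ) - S P|), (S P / 4) ^ 2 := by
          simp
      _ ≤ ∑ n ∈ (Icc 1 X).filter (fun n => S P / 4 ≤ |(w P n : ℝ) - S P|),
          ((w P n : ℝ) - S P) ^ 2 := by
          refine Finset.sum_le_sum fun n hn => ?_
          have := (Finset.mem_filter.1 hn).2
          rw [← sq_abs ((w P n : ℝ) - S P)]
          exact pow_le_pow_left₀ (by positivity) this 2
      _ ≤ _ := Finset.sum_le_sum_of_subset_of_nonneg (Finset.filter_subset _ _)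
          fun n _ _ => sq_nonneg _
  rw [le_div_iff₀ hS]
  have h3 := h2.trans h1
  have h4 : (((Icc 1 X).filter (fun n => S P / 4 ≤ |(w P n : ℝ) - S P|)).card : ℝ) * S P * S P ≤
      16 * (X + 2 * P.card) * S P := by nlinarith
  exact le_of_mul_le_mul_right h4 hS

/-- The primes that divide both. -/
def v (P : Finset ℕ) (a b : ℕ) : ℕ := (P.filter (fun p => p ∣ a ∧ p ∣ b)).card

lemma sum_inv_sq (hP : ∀ p ∈ P, p.Prime) : ∑ p ∈ P, (1 : ℝ) / p ^ 2 ≤ 1 := by
  -- telescoping bound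
  obtain ⟨K, hK⟩ : ∃ K : ℕ, ∀ p ∈ P, p ≤ K := ⟨P.sup id, fun p hp => Finset.le_sup (f := id) hp⟩
  have h1 : ∑ p ∈ P, (1 : ℝ) / p ^ 2 ≤ ∑ n ∈ Icc 2 K, (1 : ℝ) / n ^ 2 := by
    refine Finset.sum_le_sum_of_subset_of_nonneg ?_ fun n _ _ => by positivity
    intro p hp
    exact Finset.mem_Icc.2 ⟨(hP p hp).two_le, hK p hp⟩
  have h2 : ∀ K : ℕ, 1 ≤ K → ∑ n ∈ Icc 2 K, (1 : ℝ) / n ^ 2 ≤ 1 - 1 / K := by
    intro K hK
    induction K, hK using Nat.le_induction with
    | base => simp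
    | succ m hm ih =>
      rw [Finset.sum_Icc_succ_top (by omega)]
      have hm0 : (0 : ℝ) < m := by exact_mod_cast hm
      have h3 : (1 : ℝ) / ((m + 1 : ℕ) : ℝ) ^ 2 ≤ 1 / m - 1 / ((m + 1 : ℕ) : ℝ) := by
        push_cast
        rw [div_sub_div _ _ hm0.ne' (by positivity), div_le_div_iff₀ (by positivity) (by positivity)]
        nlinarith
      linarith
  rcases Nat.eq_zero_or_pos K with hK0 | hK0
  · subst hK0
    exact h1.trans (by simp)
  · refine h1.trans ((h2 K hK0).trans ?_)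
    have : (0 : ℝ) ≤ 1 / K := by positivity
    linarith

lemma sum_v (hP : ∀ p ∈ P, p.Prime) (N : ℕ) :
    ∑ x ∈ Icc 1 N ×ˢ Icc 1 N, (v P x.1 x.2 : ℝ) ≤ (N : ℝ) ^ 2 := by
  have h1 : ∀ x ∈ Icc 1 N ×ˢ Icc 1 N, (v P x.1 x.2 : ℝ) =
      ∑ p ∈ P, (if p ∣ x.1 then (1 : ℝ) else 0) * (if p ∣ x.2 then (1 : ℝ) else 0) := by
    intro x _
    rw [v, Finset.card_filter]
    push_cast
    refine Finset.sum_congr rfl fun p _ => ?_
    by_cases hp : p ∣ x.1 <;> by_cases hq : p ∣ x.2 <;> simp [hp, hq]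
  rw [Finset.sum_congr rfl h1, Finset.sum_comm]
  have h2 : ∀ p ∈ P, ∑ x ∈ Icc 1 N ×ˢ Icc 1 N,
      (if p ∣ x.1 then (1 : ℝ) else 0) * (if p ∣ x.2 then (1 : ℝ) else 0) ≤
      (N : ℝ) ^ 2 * (1 / (p : ℝ) ^ 2) := by
    intro p hp
    rw [Finset.sum_product, ← Finset.sum_mul_sum (Icc 1 N) (Icc 1 N)
      (fun n => if p ∣ n then (1 : ℝ) else 0) (fun n => if p ∣ n then (1 : ℝ) else 0)]
    have h3 : (∑ n ∈ Icc 1 N, if p ∣ n then (1 : ℝ) else 0) = ((N / p : ℕ) : ℝ) := by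
      rw [← count_dvd N p, Finset.card_filter]
      push_cast
      rfl
    rw [h3]
    have h4 : ((N / p : ℕ) : ℝ) ≤ N / p := Nat.cast_div_le
    have h5 : (0 : ℝ) ≤ ((N / p : ℕ) : ℝ) := by positivity
    calc ((N / p : ℕ) : ℝ) * ((N / p : ℕ) : ℝ) ≤ (N / p) * (N / p) :=
          mul_le_mul h4 h4 h5 (h5.trans h4)
      _ = _ := by ring
  refine (Finset.sum_le_sum h2).trans ?_
  rw [← Finset.mul_sum]
  have h6 := sum_inv_sq hP
  nlinarith [sq_nonneg (N : ℝ)]

/-- The distinct products. -/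
def prods (N : ℕ) : Finset ℕ := (Icc 1 N ×ˢ Icc 1 N).image (fun x => x.1 * x.2)

lemma w_mul (a b : ℕ) : w P a + w P b ≤ w P (a * b) + v P a b := by
  classical
  unfold w v
  rw [← Finset.card_union_add_card_inter]
  refine add_le_add (Finset.card_le_card ?_) (Finset.card_le_card ?_)
  · intro p hp
    simp only [Finset.mem_union, Finset.mem_filter] at hp ⊢
    rcases hp with hp | hp
    · exact ⟨hp.1, Dvd.dvd.mul_right hp.2 b⟩
    · exact ⟨hp.1, Dvd.dvd.mul_left hp.2 a⟩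
  · intro p hp
    simp only [Finset.mem_inter, Finset.mem_filter] at hp ⊢
    exact ⟨hp.1.1, hp.1.2, hp.2.2⟩

lemma card_prods (hP : ∀ p ∈ P, p.Prime) (hS : 0 < S P) (N : ℕ) :
    ((prods N).card : ℝ) ≤ (52 * (N : ℝ) ^ 2 + 32 * P.card + 64 * P.card * N) / S P := by
  classical
  set B := (Icc 1 (N ^ 2)).filter (fun n => S P / 4 ≤ |(w P n : ℝ) - S P|) with hB
  set G := (Icc 1 N).filter (fun n => S P / 4 ≤ |(w P n : ℝ) - S P|) with hG
  set V := (Icc 1 N ×ˢ Icc 1 N).filter (fun x => S P / 4 ≤ (v P x.1 x.2 : ℝ)) with hV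
  have hsub : prods N ⊆ B ∪ ((G ×ˢ Icc 1 N).image (fun x => x.1 * x.2) ∪
      ((Icc 1 N ×ˢ G).image (fun x => x.1 * x.2) ∪ V.image (fun x => x.1 * x.2))) := by
    intro n hn
    obtain ⟨⟨a, b⟩, hab, rfl⟩ := Finset.mem_image.1 hn
    obtain ⟨ha, hb⟩ := Finset.mem_product.1 hab
    simp only at ha hb
    by_cases h1 : a ∈ G
    · refine Finset.mem_union_right _ (Finset.mem_union_left _ ?_)
      exact Finset.mem_image.2 ⟨(a, b), Finset.mem_product.2 ⟨h1, hb⟩, rfl⟩
    by_cases h2 : b ∈ G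
    · refine Finset.mem_union_right _ (Finset.mem_union_right _ (Finset.mem_union_left _ ?_))
      exact Finset.mem_image.2 ⟨(a, b), Finset.mem_product.2 ⟨ha, h2⟩, rfl⟩
    by_cases h3 : (a, b) ∈ V
    · refine Finset.mem_union_right _ (Finset.mem_union_right _ (Finset.mem_union_right _ ?_))
      exact Finset.mem_image.2 ⟨(a, b), h3, rfl⟩
    refine Finset.mem_union_left _ ?_
    rw [hG, Finset.mem_filter, not_and] at h1 h2
    have h1' := h1 ha
    have h2' := h2 hb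
    rw [hV, Finset.mem_filter, not_and] at h3
    have h3' := h3 hab
    simp only at h3'
    push Not at h1' h2' h3'
    have h4 : (w P a : ℝ) + w P b ≤ w P (a * b) + v P a b := by exact_mod_cast w_mul a b
    rw [abs_lt] at h1' h2'
    refine Finset.mem_filter.2 ⟨Finset.mem_Icc.2 ⟨?_, ?_⟩, ?_⟩
    · have := (Finset.mem_Icc.1 ha).1
      have := (Finset.mem_Icc.1 hb).1
      exact Nat.mul_pos (by omega) (by omega)
    · rw [sq]
      exact Nat.mul_le_mul (Finset.mem_Icc.1 ha).2 (Finset.mem_Icc.1 hb).2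
    · simp only
      rw [le_abs]
      left
      linarith
  have hB' := few hP hS (N ^ 2)
  have hG' := few hP hS N
  have hV' : (V.card : ℝ) ≤ 4 * (N : ℝ) ^ 2 / S P := by
    have h5 : (V.card : ℝ) * (S P / 4) ≤ (N : ℝ) ^ 2 := by
      calc (V.card : ℝ) * (S P / 4) = ∑ x ∈ V, S P / 4 := by simp
        _ ≤ ∑ x ∈ V, (v P x.1 x.2 : ℝ) := Finset.sum_le_sum fun x hx => (Finset.mem_filter.1 hx).2
        _ ≤ ∑ x ∈ Icc 1 N ×ˢ Icc 1 N, (v P x.1 x.2 : ℝ) :=
          Finset.sum_le_sum_of_subset_of_nonneg (Finset.filter_subset _ _)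
            fun _ _ _ => by positivity
        _ ≤ _ := sum_v hP N
    rw [le_div_iff₀ hS]
    linarith
  have hc : ((prods N).card : ℝ) ≤ B.card + (G.card * N + (N * G.card + V.card)) := by
    have h6 : (prods N).card ≤ B.card + (G.card * N + (N * G.card + V.card)) := by
      refine (Finset.card_le_card hsub).trans ((Finset.card_union_le _ _).trans ?_)
      refine Nat.add_le_add_left ((Finset.card_union_le _ _).trans ?_) _
      refine Nat.add_le_add ?_ ((Finset.card_union_le _ _).trans (Nat.add_le_add ?_ ?_))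
      · refine Finset.card_image_le.trans ?_
        simp [Finset.card_product]
      · refine Finset.card_image_le.trans ?_
        simp [Finset.card_product]
      · exact Finset.card_image_le
    exact_mod_cast h6
  have hN : (0 : ℝ) ≤ N := by positivity
  have hG'' : (G.card : ℝ) * N ≤ 16 * (N + 2 * P.card) / S P * N :=
    mul_le_mul_of_nonneg_right hG' hN
  push_cast at hB'
  calc ((prods N).card : ℝ) ≤ B.card + (G.card * N + (N * G.card + V.card)) := hc
    _ ≤ 16 * ((N : ℝ) ^ 2 + 2 * P.card) / S P + (16 * (N + 2 * P.card) / S P * N +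
        (16 * (N + 2 * P.card) / S P * N + 4 * (N : ℝ) ^ 2 / S P)) := by
        have : (N : ℝ) * G.card = G.card * N := mul_comm _ _
        rw [this]
        gcongr
    _ = _ := by ring

/-- **Erdos' multiplication table theorem.** -/
theorem mul_table (ε : ℝ) (hε : 0 < ε) :
    ∃ N₀ : ℕ, ∀ N ≥ N₀, ((prods N).card : ℝ) ≤ ε * (N : ℝ) ^ 2 := by
  obtain ⟨P, hP, hS⟩ := exists_primes (104 / ε)
  have hS0 : 0 < S P := lt_of_lt_of_le (by positivity) hS
  refine ⟨2 * P.card + 1, fun N hN => (card_prods hP hS0 N).trans ?_⟩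
  rw [div_le_iff₀ hS0]
  have hNr : (2 : ℝ) * P.card + 1 ≤ N := by exact_mod_cast hN
  have hPc : (0 : ℝ) ≤ P.card := by positivity
  have h1 : 104 ≤ ε * S P := by
    have := mul_le_mul_of_nonneg_left hS hε.le
    rwa [mul_div_cancel₀ _ hε.ne'] at this
  have h2 : 104 * (N : ℝ) ^ 2 ≤ ε * S P * (N : ℝ) ^ 2 :=
    mul_le_mul_of_nonneg_right h1 (by positivity)
  nlinarith

end Pool.Agent.Run7.h516.MT
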