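import Pool.Agent.Run7.h516.Basic

/-! The solar property of Chebyshev sets in finite-dimensional spaces, by Euler polygons. -/

namespace Run7.h516

open Metric Set Filter Topology

set_option linter.unusedSectionVars false

variable {E : Type*} [NormedAddCommGroup E] [NormedSpace ℝ E]

/-- unit direction from `x` to its nearest point -/
noncomputable def sd (P : E → E) (x : E) : E := (rr P x)⁻¹ • (P x - x)

section
variable {M : Set E} {P : E → E}

theorem Proj.norm_sd (h : Proj M P) {x : E} (hx : x ∉ M) : ‖sd P x‖ = 1 := by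
  have h1 := h.rr_pos hx
  have h2 : ‖P x - x‖ = rr P x := by rw [norm_sub_rev]; rfl
  rw [sd, norm_smul, h2, norm_inv, Real.norm_of_nonneg h1.le]
  exact inv_mul_cancel₀ h1.ne'

theorem Proj.smul_sd (h : Proj M P) {x : E} (hx : x ∉ M) : rr P x • sd P x = P x - x := by
  have h1 := h.rr_pos hx
  rw [sd, smul_smul, mul_inv_cancel₀ h1.ne', one_smul]

/-- One Euler step away from the set. -/
theorem Proj.step_lemma (h : Proj M P) {z : E} (hz : z ∉ M) {t : ℝ} (ht : 0 ≤ t) :
    rr P z + t * (1 - ‖P (z - t • sd P z) - P z‖ / rr P z) ≤ rr P (z - t • sd P z) := by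
  have hr := h.rr_pos hz
  set z' := z - t • sd P z with hz'
  obtain ⟨N, hN1, hN2⟩ := exists_dual_vector'' ℝ (P z' - z)
  have hN2' : N (P z' - z) = ‖P z' - z‖ := by simpa using hN2
  have hNle : ∀ w, N w ≤ ‖w‖ := fun w => by
    have h1 := N.le_opNorm w
    have h2 : N w ≤ ‖N w‖ := Real.le_norm_self _
    nlinarith [norm_nonneg w]
  have h1 : rr P z ≤ ‖P z' - z‖ := by
    rw [norm_sub_rev]; exact h.rr_le z (h.mem z')
  have h2 : N (sd P z) = (rr P z)⁻¹ * N (P z - z) := by
    rw [sd, map_smul]; rfl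
  have h3 : N (P z - z) = N (P z' - z) - N (P z' - P z) := by
    rw [← map_sub]; congr 1; abel
  have h4 : N (P z' - P z) ≤ ‖P z' - P z‖ := hNle _
  have h5 : 1 - ‖P z' - P z‖ / rr P z ≤ N (sd P z) := by
    rw [h2, h3, hN2']
    have e : 1 - ‖P z' - P z‖ / rr P z = (rr P z)⁻¹ * (rr P z - ‖P z' - P z‖) := by
      field_simp
    rw [e]
    apply mul_le_mul_of_nonneg_left _ (inv_nonneg.2 hr.le)
    linarith
  have h6 : N (P z' - z') ≤ rr P z' := by
    have : ‖P z' - z'‖ = rr P z' := by rw [norm_sub_rev]; rfl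
    rw [← this]; exact hNle _
  have h7 : N (P z' - z') = N (P z' - z) + t * N (sd P z) := by
    have e : P z' - z' = (P z' - z) + t • sd P z := by rw [hz']; abel
    conv_lhs => rw [e]
    rw [map_add, map_smul]; rfl
  have h8 : t * (1 - ‖P z' - P z‖ / rr P z) ≤ t * N (sd P z) := mul_le_mul_of_nonneg_left h5 ht
  linarith

/-- Euler polygon -/
noncomputable def euler (P : E → E) (x : E) (t : ℝ) : ℕ → E
  | 0 => x
  | (n + 1) => euler P x t n - t • sd P (euler P x t n)

theorem Proj.euler_bounds (h : Proj M P) {x : E} (hx : x ∉ M) {T ε t : ℝ} (ht : 0 < t)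
    (hε0 : 0 < ε) (hε : ε ≤ rr P x)
    (hu : ∀ a ∈ closedBall x T, ∀ b ∈ closedBall x T, ‖a - b‖ ≤ t → ‖P a - P b‖ ≤ ε) (n : ℕ)
    (hn : n * t ≤ T) :
    ‖euler P x t n - x‖ ≤ n * t ∧
      rr P x + n * t * (1 - ε / rr P x) ≤ rr P (euler P x t n) := by
  have hr := h.rr_pos hx
  induction n with
  | zero => simp [euler]
  | succ n ih =>
    push_cast at hn
    have hn' : (n : ℝ) * t ≤ T := by nlinarith
    obtain ⟨ih1, ih2⟩ := ih hn'
    set z := euler P x t n with hz
    have hq : ε / rr P x ≤ 1 := by rw [div_le_one hr]; exact hε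
    have hnt : 0 ≤ (n : ℝ) * t := by positivity
    have hrz : rr P x ≤ rr P z := by nlinarith [mul_nonneg hnt (sub_nonneg.2 hq)]
    have hzM : z ∉ M := h.notMem_of_pos (hr.trans_le hrz)
    have hs := h.norm_sd hzM
    have hstep := h.step_lemma hzM ht.le
    have e : euler P x t (n + 1) = z - t • sd P z := rfl
    rw [e]
    have hnt' : ‖t • sd P z‖ = t := by
      rw [norm_smul, hs, Real.norm_of_nonneg ht.le, mul_one]
    have hb1 : ‖z - t • sd P z - x‖ ≤ (n + 1) * t := by
      have : z - t • sd P z - x = (z - x) - t • sd P z := by abel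
      rw [this]
      have := norm_sub_le (z - x) (t • sd P z)
      linarith
    refine ⟨by push_cast; exact hb1, ?_⟩
    have hmem1 : z ∈ closedBall x T := by
      rw [mem_closedBall, dist_eq_norm]; linarith
    have hmem2 : z - t • sd P z ∈ closedBall x T := by
      rw [mem_closedBall, dist_eq_norm]; linarith
    have hP : ‖P (z - t • sd P z) - P z‖ ≤ ε := by
      apply hu _ hmem2 _ hmem1
      have : z - t • sd P z - z = -(t • sd P z) := by abel
      rw [this, norm_neg, hnt']
    have hdiv : ‖P (z - t • sd P z) - P z‖ / rr P z ≤ ε / rr P x := by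
      apply div_le_div₀ hε0.le hP hr hrz
    push_cast
    nlinarith [mul_le_mul_of_nonneg_left hdiv ht.le]

theorem Proj.euler_drift (h : Proj M P) {x : E} (hx : x ∉ M) {T ε t η : ℝ} (ht : 0 < t)
    (hε0 : 0 < ε) (hε : ε ≤ rr P x) (_hη : 0 < η) (hTη : T * (ε / rr P x) ≤ η)
    (hu : ∀ a ∈ closedBall x T, ∀ b ∈ closedBall x T, ‖a - b‖ ≤ t → ‖P a - P b‖ ≤ ε)
    (hstab : ∀ t' ∈ Icc 0 T, ∀ z : E, ‖z - x‖ ≤ t' →
      rr P x + t' - T * (ε / rr P x) ≤ rr P z → ‖P z - P x‖ ≤ η) (n : ℕ)
    (hn : n * t ≤ T) :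
    ‖euler P x t n - (x - (n * t) • sd P x)‖ + 2 * η ≤ 2 * η * (1 + t / rr P x) ^ n := by
  have hr := h.rr_pos hx
  induction n with
  | zero => simp [euler]
  | succ n ih =>
    push_cast at hn
    have hn' : (n : ℝ) * t ≤ T := by nlinarith
    have ihh := ih hn'
    obtain ⟨b1, b2⟩ := h.euler_bounds hx ht hε0 hε hu n hn'
    set z := euler P x t n with hz
    set τ := (n : ℝ) * t with hτ
    have hq : ε / rr P x ≤ 1 := by rw [div_le_one hr]; exact hε
    have hq0 : 0 ≤ ε / rr P x := by positivity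
    have hτ0 : 0 ≤ τ := by positivity
    have hrz : rr P x ≤ rr P z := by nlinarith [mul_nonneg hτ0 (sub_nonneg.2 hq)]
    have hzM : z ∉ M := h.notMem_of_pos (hr.trans_le hrz)
    have hτq : τ * (ε / rr P x) ≤ T * (ε / rr P x) := mul_le_mul_of_nonneg_right hn' hq0
    have hPz : ‖P z - P x‖ ≤ η := by
      apply hstab τ ⟨hτ0, hn'⟩ z b1
      nlinarith
    have hup : rr P z ≤ rr P x + τ := by
      have := h.rr_le_add z x
      linarith
    set s := sd P x with hs
    set d := z - (x - τ • s) with hd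
    have hsz : rr P z • (sd P z - s) = (P z - P x) - d + (rr P x + τ - rr P z) • s := by
      rw [smul_sub, h.smul_sd hzM, hd]
      have : P x = x + rr P x • s := by
        rw [hs, h.smul_sd hx]; abel
      rw [this, sub_smul, add_smul]
      abel
    have hns : ‖s‖ = 1 := h.norm_sd hx
    have hgap0 : 0 ≤ rr P x + τ - rr P z := by linarith
    have hgap : rr P x + τ - rr P z ≤ η := by nlinarith
    have hnorm : rr P z * ‖sd P z - s‖ ≤ 2 * η + ‖d‖ := by
      have e1 : rr P z * ‖sd P z - s‖ = ‖rr P z • (sd P z - s)‖ := by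
        rw [norm_smul, Real.norm_of_nonneg (rr_nonneg _)]
      rw [e1, hsz]
      have e2 : ‖(P z - P x) - d + (rr P x + τ - rr P z) • s‖ ≤
          ‖P z - P x‖ + ‖d‖ + (rr P x + τ - rr P z) := by
        refine (norm_add_le _ _).trans ?_
        have e3 : ‖(rr P x + τ - rr P z) • s‖ = rr P x + τ - rr P z := by
          rw [norm_smul, hns, Real.norm_of_nonneg hgap0, mul_one]
        rw [e3]
        have := norm_sub_le (P z - P x) d
        linarith
      linarith
    have hnorm2 : rr P x * ‖sd P z - s‖ ≤ 2 * η + ‖d‖ := by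
      refine le_trans ?_ hnorm
      exact mul_le_mul_of_nonneg_right hrz (norm_nonneg _)
    have hnorm3 : ‖sd P z - s‖ ≤ (2 * η + ‖d‖) / rr P x := by
      rw [le_div_iff₀ hr, mul_comm]; exact hnorm2
    have e : euler P x t (n + 1) - (x - (((n + 1 : ℕ) : ℝ) * t) • s) = d - t • (sd P z - s) := by
      have e1 : euler P x t (n + 1) = z - t • sd P z := rfl
      rw [e1, hd, hτ]
      push_cast
      rw [add_mul, one_mul, add_smul, smul_sub]
      abel
    rw [e]
    have h1 : ‖d - t • (sd P z - s)‖ ≤ ‖d‖ + t * ((2 * η + ‖d‖) / rr P x) := by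
      refine (norm_sub_le _ _).trans ?_
      rw [norm_smul, Real.norm_of_nonneg ht.le]
      have := mul_le_mul_of_nonneg_left hnorm3 ht.le
      linarith
    have h2 : ‖d‖ + t * ((2 * η + ‖d‖) / rr P x) + 2 * η = (‖d‖ + 2 * η) * (1 + t / rr P x) := by
      field_simp
      ring
    have h3 : (‖d‖ + 2 * η) * (1 + t / rr P x) ≤ 2 * η * (1 + t / rr P x) ^ n * (1 + t / rr P x) :=
      mul_le_mul_of_nonneg_right ihh (by positivity)
    rw [pow_succ]
    linarith [h1, h2, h3]

/-- The sun property. -/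
theorem Proj.sun_rr [FiniteDimensional ℝ E] (h : Proj M P) {x : E} (hx : x ∉ M) {T : ℝ}
    (hT : 0 ≤ T) : rr P x + T ≤ rr P (x - T • sd P x) := by
  have hr := h.rr_pos hx
  rcases hT.eq_or_lt with h0 | hT
  · rw [← h0]; simp
  -- the main estimate for every η
  have key : ∀ η > 0, rr P x + T - η - 2 * η * Real.exp (T / rr P x) ≤
      rr P (x - T • sd P x) := by
    intro η hη
    obtain ⟨ε', hε', hstab⟩ := h.stab x T hη
    set ε := min (rr P x) (min (ε' * rr P x / T) (η * rr P x / T)) with hεdef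
    have hε0 : 0 < ε := by
      rw [hεdef]
      refine lt_min hr (lt_min ?_ ?_) <;> positivity
    have hε1 : ε ≤ rr P x := min_le_left _ _
    have hε2 : T * (ε / rr P x) ≤ ε' := by
      have : ε ≤ ε' * rr P x / T := (min_le_right _ _).trans (min_le_left _ _)
      rw [le_div_iff₀ hT] at this
      rw [mul_div_assoc', div_le_iff₀ hr]
      linarith
    have hε3 : T * (ε / rr P x) ≤ η := by
      have : ε ≤ η * rr P x / T := (min_le_right _ _).trans (min_le_right _ _)
      rw [le_div_iff₀ hT] at this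
      rw [mul_div_assoc', div_le_iff₀ hr]
      linarith
    have huc : UniformContinuousOn P (closedBall x T) :=
      (isCompact_closedBall x T).uniformContinuousOn_of_continuous h.continuous.continuousOn
    rw [Metric.uniformContinuousOn_iff] at huc
    obtain ⟨δ, hδ, hu⟩ := huc ε hε0
    obtain ⟨n, hn⟩ := exists_nat_gt (T / δ)
    have hn0 : 0 < (n : ℝ) := lt_trans (by positivity) hn
    set t := T / n with htdef
    have ht : 0 < t := by positivity
    have htδ : t < δ := by
      rw [htdef, div_lt_iff₀ hn0]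
      rw [div_lt_iff₀ hδ] at hn
      linarith
    have hnt : (n : ℝ) * t = T := by rw [htdef]; field_simp
    have hu' : ∀ a ∈ closedBall x T, ∀ b ∈ closedBall x T, ‖a - b‖ ≤ t → ‖P a - P b‖ ≤ ε := by
      intro a ha b hb hab
      have := hu a ha b hb (by rw [dist_eq_norm]; linarith)
      rw [dist_eq_norm] at this
      exact this.le
    have hst' : ∀ t' ∈ Icc 0 T, ∀ z : E, ‖z - x‖ ≤ t' →
      rr P x + t' - T * (ε / rr P x) ≤ rr P z → ‖P z - P x‖ ≤ η := by
      intro t' ht' z hz hrz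
      exact hstab t' ht' z hz (by linarith)
    obtain ⟨b1, b2⟩ := h.euler_bounds hx ht hε0 hε1 hu' n hnt.le
    have b3 := h.euler_drift hx ht hε0 hε1 hη hε3 hu' hst' n hnt.le
    rw [hnt] at b1 b2 b3
    have b4 : (1 + t / rr P x) ^ n ≤ Real.exp (T / rr P x) := by
      have h1 : 1 + t / rr P x ≤ Real.exp (t / rr P x) := by
        have := Real.add_one_le_exp (t / rr P x)
        linarith
      have h2 : (1 + t / rr P x) ^ n ≤ (Real.exp (t / rr P x)) ^ n :=
        pow_le_pow_left₀ (by positivity) h1 n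
      have h3 : (Real.exp (t / rr P x)) ^ n = Real.exp (T / rr P x) := by
        rw [← Real.exp_nat_mul]
        congr 1
        rw [← hnt]; field_simp
      linarith
    have b5 : ‖euler P x t n - (x - T • sd P x)‖ ≤ 2 * η * Real.exp (T / rr P x) := by
      have : 2 * η * (1 + t / rr P x) ^ n ≤ 2 * η * Real.exp (T / rr P x) :=
        mul_le_mul_of_nonneg_left b4 (by positivity)
      linarith
    have b6 := h.rr_le_add (euler P x t n) (x - T • sd P x)
    have b7 : T * (1 - ε / rr P x) = T - T * (ε / rr P x) := by ring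
    linarith
  by_contra hcon
  replace hcon := not_le.1 hcon
  set gap := rr P x + T - rr P (x - T • sd P x) with hgap
  have hgpos : 0 < gap := by rw [hgap]; linarith
  have hc : 0 < 1 + 2 * Real.exp (T / rr P x) := by positivity
  have := key (gap / (2 * (1 + 2 * Real.exp (T / rr P x)))) (by positivity)
  have e : gap / (2 * (1 + 2 * Real.exp (T / rr P x))) +
      2 * (gap / (2 * (1 + 2 * Real.exp (T / rr P x)))) * Real.exp (T / rr P x) = gap / 2 := by
    field_simp
  linarith

theorem Proj.sun [FiniteDimensional ℝ E] (h : Proj M P) {x : E} (hx : x ∉ M) {T : ℝ}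
    (hT : 0 ≤ T) : P (x - T • sd P x) = P x ∧ rr P (x - T • sd P x) = rr P x + T := by
  have h1 := h.sun_rr hx hT
  have hn : ‖(x - T • sd P x) - x‖ ≤ T := by
    have : (x - T • sd P x) - x = -(T • sd P x) := by abel
    rw [this, norm_neg, norm_smul, h.norm_sd hx, Real.norm_of_nonneg hT, mul_one]
  refine ⟨h.end_lemma hn h1, le_antisymm ?_ h1⟩
  have := h.rr_le_add (x - T • sd P x) x
  linarith

/-- For all `R ≥ r x`, the point `P x - R s` has nearest point `P x` and distance `R`. -/
theorem Proj.sun' [FiniteDimensional ℝ E] (h : Proj M P) {x : E} (hx : x ∉ M) {R : ℝ}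
    (hR : rr P x ≤ R) : P (P x - R • sd P x) = P x ∧ rr P (P x - R • sd P x) = R := by
  have h1 := h.sun hx (sub_nonneg.2 hR)
  have e : x - (R - rr P x) • sd P x = P x - R • sd P x := by
    rw [sub_smul, h.smul_sd hx]; abel
  rw [e] at h1
  refine ⟨h1.1, by rw [h1.2]; ring⟩

/-- Slide lemma. -/
theorem Proj.slide [FiniteDimensional ℝ E] (h : Proj M P) {x : E} (hx : x ∉ M) {a b : E} {l : ℝ}
    (ha : ‖a‖ ≤ 1) (hb : ‖b‖ ≤ 1) (hl0 : 0 ≤ l) (hl1 : l < 1)
    (hs : sd P x = (1 - l) • a + l • b) {ρ : ℝ} (hρ : 0 < ρ) :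
    P (P x - ρ • a) = P x ∧ rr P (P x - ρ • a) = ρ := by
  have hl : 0 < 1 - l := by linarith
  set R := max (rr P x) (ρ / (1 - l)) with hR
  have hR1 : rr P x ≤ R := le_max_left _ _
  have hR2 : ρ ≤ R * (1 - l) := by
    have : ρ / (1 - l) ≤ R := le_max_right _ _
    rwa [div_le_iff₀ hl] at this
  have hR0 : 0 ≤ R := (rr_nonneg x).trans hR1
  obtain ⟨h1, h2⟩ := h.sun' hx hR1
  set q := P x - ρ • a with hq
  have hdist : ‖(P x - R • sd P x) - q‖ ≤ R - ρ := by
    have e : (P x - R • sd P x) - q = -((R * (1 - l) - ρ) • a + (R * l) • b) := by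
      rw [hq, hs, smul_add, smul_smul, smul_smul, sub_smul]
      abel
    rw [e, norm_neg]
    refine (norm_add_le _ _).trans ?_
    rw [norm_smul, norm_smul, Real.norm_of_nonneg (sub_nonneg.2 hR2),
      Real.norm_of_nonneg (mul_nonneg hR0 hl0)]
    have e1 : (R * (1 - l) - ρ) * ‖a‖ ≤ (R * (1 - l) - ρ) * 1 :=
      mul_le_mul_of_nonneg_left ha (sub_nonneg.2 hR2)
    have e2 : (R * l) * ‖b‖ ≤ (R * l) * 1 := mul_le_mul_of_nonneg_left hb (mul_nonneg hR0 hl0)
    linarith
  have h3 := h.rr_le_add (P x - R • sd P x) q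
  rw [h2] at h3
  have h4 : ρ ≤ rr P q := by linarith
  have h5 : ‖q - P x‖ ≤ ρ := by
    have e : q - P x = -(ρ • a) := by rw [hq]; abel
    rw [e, norm_neg, norm_smul, Real.norm_of_nonneg hρ.le]
    nlinarith
  have h6 : P x = P q := h.eq_of_le (h.mem x) (h5.trans h4)
  refine ⟨h6.symm, le_antisymm ?_ h4⟩
  have : rr P q ≤ ‖q - P x‖ := h.rr_le q (h.mem x)
  linarith

end

end Run7.h516
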